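import Pool.Agent.Lib.MP_b7851d_lc.Star.N3a.Str.Main

/-!
# N3a, row STR: the structure theorem, last part
-/

namespace Pool.Agent.QuadEq.Star.Str

open Pool.Agent.QuadEq.Star

set_option linter.unusedSectionVars false

variable {α : Type} [DecidableEq α]

/-- the occurrence of `K0` -/
def psi0 (e f m m' x x' z z' : α) (n : ℕ) : α :=
  if n = 0 then e else if n = 1 then f else if n = 2 then m else if n = 3 then m' else
  if n = 4 then x else if n = 5 then x' else if n = 6 then z else z'

/-- the occurrence of `Kin`, `K31`, `K13` -/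
def psi1 (e f m m' x x' z z' y y' : α) (n : ℕ) : α :=
  if n = 8 then y else if n = 9 then y' else psi0 e f m m' x x' z z' n

/-- the frame: a top pair and a bottom pair -/
structure Fr (lam : α → α) (e f m m' x z : α) (W : List α) (pos : α → ℤ) : Prop where
  st : Set1 lam (anc e f m m') (fun x => x ∈ W) pos (FLY ++ FC5)
  le : lam e = f
  lm : lam m = m'
  o1 : pos e < pos x
  o2 : pos x < pos (lam x)
  o3 : pos (lam x) < pos m'
  o4 : pos m' < pos f
  o5 : pos f < pos z
  o6 : pos z < pos (lam z)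
  o7 : pos (lam z) < pos m
  we : e ∈ W
  wm : m ∈ W
  wx : x ∈ W
  wz : z ∈ W

lemma Fr.em0 {lam : α → α} {e f m m' x z : α} {W : List α} {pos : α → ℤ}
    (h : Fr lam e f m m' x z W pos) :
    Em lam (anc e f m m') (fun x => x ∈ W) pos K0 (psi0 e f m m' x (lam x) z (lam z)) := by
  obtain ⟨st, le, lm, o1, o2, o3, o4, o5, o6, o7, we, wm, wx, wz⟩ := h
  have hy := st.hy
  have wf : f ∈ W := by rw [← le]; exact hy.mem e we
  have wm' : m' ∈ W := by rw [← lm]; exact hy.mem m wm
  have lf : lam f = e := by rw [← le]; exact hy.inv e we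
  have lm' : lam m' = m := by rw [← lm]; exact hy.inv m wm
  have lx : lam (lam x) = x := hy.inv x wx
  have lz : lam (lam z) = z := hy.inv z wz
  refine ⟨?_, ?_, ?_, ?_⟩
  · intro c hc
    interval_cases c <;> rfl
  · intro c hc
    simp only [K0, List.mem_cons, List.not_mem_nil, or_false] at hc
    rcases hc with rfl | rfl | rfl | rfl | rfl | rfl | rfl | rfl <;>
      simp [xl, psi0, le, lf, lm, lm', lx, lz]
  · intro c hc
    simp only [K0, List.mem_cons, List.not_mem_nil, or_false] at hc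
    rcases hc with rfl | rfl | rfl | rfl | rfl | rfl | rfl | rfl
    · exact we
    · exact wx
    · exact hy.mem x wx
    · exact wm'
    · exact wf
    · exact wz
    · exact hy.mem z wz
    · exact wm
  · simp only [K0, List.pairwise_cons, List.mem_cons, List.not_mem_nil, or_false,
      forall_eq_or_imp, forall_eq, psi0]
    simp
    omega

lemma Fr.em1 {lam : α → α} {e f m m' x z : α} {W : List α} {pos : α → ℤ}
    (h : Fr lam e f m m' x z W pos) {y : α} (hy : y ∈ W) :
    (pos x < pos y → pos y < pos (lam x) → pos z < pos (lam y) → pos (lam y) < pos (lam z) →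
      Em lam (anc e f m m') (fun x => x ∈ W) pos Kin
        (psi1 e f m m' x (lam x) z (lam z) y (lam y))) ∧
    (pos (lam x) < pos y → pos y < pos m' → pos f < pos (lam y) → pos (lam y) < pos z →
      Em lam (anc e f m m') (fun x => x ∈ W) pos K31
        (psi1 e f m m' x (lam x) z (lam z) y (lam y))) ∧
    (pos e < pos y → pos y < pos x → pos (lam z) < pos (lam y) → pos (lam y) < pos m →
      Em lam (anc e f m m') (fun x => x ∈ W) pos K13
        (psi1 e f m m' x (lam x) z (lam z) y (lam y))) := by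
  have h0 := h.em0
  obtain ⟨st, le, lm, o1, o2, o3, o4, o5, o6, o7, we, wm, wx, wz⟩ := h
  have hh := st.hy
  have ly : lam (lam y) = y := hh.inv y hy
  have c1 : ∀ c, c = 8 ∨ c = 9 ∨ c ∈ K0 →
      psi1 e f m m' x (lam x) z (lam z) y (lam y) (xl c) =
        lam (psi1 e f m m' x (lam x) z (lam z) y (lam y) c) := by
    rintro c (rfl | rfl | hc)
    · simp [xl, psi1]
    · simp [xl, psi1, ly]
    · have e1 : ∀ c ∈ K0, psi1 e f m m' x (lam x) z (lam z) y (lam y) c =
          psi0 e f m m' x (lam x) z (lam z) c := by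
        intro c hc
        simp only [K0, List.mem_cons, List.not_mem_nil, or_false] at hc
        rcases hc with rfl | rfl | rfl | rfl | rfl | rfl | rfl | rfl <;> rfl
      have e2 : xl c ∈ K0 := (chkW_sound chkW_K.1).2.1 c hc
      rw [e1 _ e2, e1 _ hc]
      exact h0.cp c hc
  have c2 : ∀ c, c = 8 ∨ c = 9 ∨ c ∈ K0 → psi1 e f m m' x (lam x) z (lam z) y (lam y) c ∈ W := by
    rintro c (rfl | rfl | hc)
    · exact hy
    · exact hh.mem y hy
    · have := h0.im c hc
      simp only [K0, List.mem_cons, List.not_mem_nil, or_false] at hc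
      rcases hc with rfl | rfl | rfl | rfl | rfl | rfl | rfl | rfl <;> exact this
  have c3 : ∀ c < 4, psi1 e f m m' x (lam x) z (lam z) y (lam y) c = anc e f m m' c := by
    intro c hc
    interval_cases c <;> rfl
  have m1 : ∀ c ∈ Kin, c = 8 ∨ c = 9 ∨ c ∈ K0 := by decide
  have m2 : ∀ c ∈ K31, c = 8 ∨ c = 9 ∨ c ∈ K0 := by decide
  have m3 : ∀ c ∈ K13, c = 8 ∨ c = 9 ∨ c ∈ K0 := by decide
  refine ⟨?_, ?_, ?_⟩
  · intro a1 a2 a3 a4
    refine ⟨c3, fun c hc => c1 c (m1 c hc), fun c hc => c2 c (m1 c hc), ?_⟩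
    simp only [Kin, List.pairwise_cons, List.mem_cons, List.not_mem_nil, or_false,
      forall_eq_or_imp, forall_eq, psi0, psi1]
    simp
    omega
  · intro a1 a2 a3 a4
    refine ⟨c3, fun c hc => c1 c (m2 c hc), fun c hc => c2 c (m2 c hc), ?_⟩
    simp only [K31, List.pairwise_cons, List.mem_cons, List.not_mem_nil, or_false,
      forall_eq_or_imp, forall_eq, psi0, psi1]
    simp
    omega
  · intro a1 a2 a3 a4
    refine ⟨c3, fun c hc => c1 c (m3 c hc), fun c hc => c2 c (m3 c hc), ?_⟩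
    simp only [K13, List.pairwise_cons, List.mem_cons, List.not_mem_nil, or_false,
      forall_eq_or_imp, forall_eq, psi0, psi1]
    simp
    omega

/-- classification of the tokens -/
lemma Fr.cls {lam : α → α} {e f m m' x z : α} {W : List α} {pos : α → ℤ}
    (h : Fr lam e f m m' x z W pos) {y : α} (hy : y ∈ W)
    (hn : ∀ c ∈ K0, psi0 e f m m' x (lam x) z (lam z) c ≠ y) :
    (pos x < pos y ∧ pos y < pos (lam x) ∧ pos z < pos (lam y) ∧ pos (lam y) < pos (lam z)) ∨
    (pos (lam x) < pos y ∧ pos y < pos m' ∧ pos f < pos (lam y) ∧ pos (lam y) < pos z) ∨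
    (pos e < pos y ∧ pos y < pos x ∧ pos (lam z) < pos (lam y) ∧ pos (lam y) < pos m) ∨
    (pos x < pos (lam y) ∧ pos (lam y) < pos (lam x) ∧ pos z < pos y ∧ pos y < pos (lam z)) ∨
    (pos (lam x) < pos (lam y) ∧ pos (lam y) < pos m' ∧ pos f < pos y ∧ pos y < pos z) ∨
    (pos e < pos (lam y) ∧ pos (lam y) < pos x ∧ pos (lam z) < pos y ∧ pos y < pos m) := by
  have memA : ∀ s ∈ [4, 5, 6, 7, 0, 1], s ∈ K0 ∧ xl s ∈ [4, 5, 6, 7, 0, 1] := by decide
  have memB : ∀ s ∈ [4, 5, 6, 7, 2, 3], s ∈ K0 ∧ xl s ∈ [4, 5, 6, 7, 2, 3] := by decide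
  obtain ⟨q, hq, he⟩ := one_more h.st chkW_K.1 h.em0 ⟨_, chk_c0⟩
    (fun s hs => ⟨(memA s hs).1, all2_mem chk_c0A s hs, all2_mem chk_c0A _ (memA s hs).2⟩)
    (fun s hs => ⟨(memB s hs).1, all2_mem chk_c0B s hs, all2_mem chk_c0B _ (memB s hs).2⟩)
    hy hn
  have hp := he.pw
  simp only [ok0, List.mem_cons, List.not_mem_nil, or_false] at hq
  rcases hq with rfl | rfl | rfl | rfl | rfl | rfl
  · simp only [List.pairwise_cons, List.mem_cons, List.not_mem_nil, or_false,
      forall_eq_or_imp, forall_eq, psi0, ex] at hp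
    simp at hp
    omega
  · simp only [List.pairwise_cons, List.mem_cons, List.not_mem_nil, or_false,
      forall_eq_or_imp, forall_eq, psi0, ex] at hp
    simp at hp
    omega
  · simp only [List.pairwise_cons, List.mem_cons, List.not_mem_nil, or_false,
      forall_eq_or_imp, forall_eq, psi0, ex] at hp
    simp at hp
    omega
  · simp only [List.pairwise_cons, List.mem_cons, List.not_mem_nil, or_false,
      forall_eq_or_imp, forall_eq, psi0, ex] at hp
    simp at hp
    omega
  · simp only [List.pairwise_cons, List.mem_cons, List.not_mem_nil, or_false,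
      forall_eq_or_imp, forall_eq, psi0, ex] at hp
    simp at hp
    omega
  · simp only [List.pairwise_cons, List.mem_cons, List.not_mem_nil, or_false,
      forall_eq_or_imp, forall_eq, psi0, ex] at hp
    simp at hp
    omega

/-- no increasing pair -/
lemma Fr.dec {lam : α → α} {e f m m' x z : α} {W : List α} {pos : α → ℤ}
    (h : Fr lam e f m m' x z W pos) {a b : α} (ha : a ∈ W) (hb : b ∈ W)
    (hc : (pos x < pos a ∧ pos a < pos (lam x) ∧ pos z < pos (lam a) ∧
        pos (lam a) < pos (lam z) ∧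
        pos x < pos b ∧ pos b < pos (lam x) ∧ pos z < pos (lam b) ∧ pos (lam b) < pos (lam z)) ∨
      (pos (lam x) < pos a ∧ pos a < pos m' ∧ pos f < pos (lam a) ∧ pos (lam a) < pos z ∧
        pos (lam x) < pos b ∧ pos b < pos m' ∧ pos f < pos (lam b) ∧ pos (lam b) < pos z) ∨
      (pos e < pos a ∧ pos a < pos x ∧ pos (lam z) < pos (lam a) ∧ pos (lam a) < pos m ∧
        pos e < pos b ∧ pos b < pos x ∧ pos (lam z) < pos (lam b) ∧ pos (lam b) < pos m))
    (hab : pos a < pos b) : pos (lam b) < pos (lam a) := by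
  by_contra hcon
  have hh := h.st.hy
  have hne : pos (lam a) ≠ pos (lam b) := by
    intro e1
    have e2 := hh.inj _ _ (hh.mem a ha) (hh.mem b hb) e1
    have e3 : a = b := by rw [← hh.inv a ha, e2, hh.inv b hb]
    rw [e3] at hab; omega
  have hlt : pos (lam a) < pos (lam b) := by omega
  have o1 := h.o1
  have o2 := h.o2
  have o3 := h.o3
  have o4 := h.o4
  have o5 := h.o5
  have o6 := h.o6
  have o7 := h.o7
  rcases hc with ⟨a1, a2, a3, a4, b1, b2, b3, b4⟩ | ⟨a1, a2, a3, a4, b1, b2, b3, b4⟩ |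
    ⟨a1, a2, a3, a4, b1, b2, b3, b4⟩
  · refine gap_after h.st chkW_K.2.1 ((h.em1 ha).1 a1 a2 a3 a4) (s := 8) (by decide)
      (all2_mem chk_cKin 8 (by decide)) (all2_mem chk_cKin (xl 8) (by decide)) hb hab hlt ?_
    intro c hc
    show _ ≠ b ∧ ¬ (pos a < _ ∧ _) ∧ ¬ (pos (lam a) < _ ∧ _)
    simp only [Kin, List.mem_cons, List.not_mem_nil, or_false] at hc
    have key : ∀ y : α, ¬ (pos a < pos y ∧ pos y < pos b) → ¬ (pos (lam a) < pos y ∧
        pos y < pos (lam b)) → pos y ≠ pos b → y ≠ b ∧ ¬ (pos a < pos y ∧ pos y < pos b) ∧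
        ¬ (pos (lam a) < pos y ∧ pos y < pos (lam b)) :=
      fun y h1 h2 h3 => ⟨fun e1 => h3 (by rw [e1]), h1, h2⟩
    rcases hc with rfl | rfl | rfl | rfl | rfl | rfl | rfl | rfl | rfl | rfl
    · exact key e (by omega) (by omega) (by omega)
    · exact key x (by omega) (by omega) (by omega)
    · exact key a (by omega) (by omega) (by omega)
    · exact key (lam x) (by omega) (by omega) (by omega)
    · exact key m' (by omega) (by omega) (by omega)
    · exact key f (by omega) (by omega) (by omega)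
    · exact key z (by omega) (by omega) (by omega)
    · exact key (lam a) (by omega) (by omega) (by omega)
    · exact key (lam z) (by omega) (by omega) (by omega)
    · exact key m (by omega) (by omega) (by omega)
  · refine gap_after h.st chkW_K.2.2.1 ((h.em1 ha).2.1 a1 a2 a3 a4) (s := 8) (by decide)
      (all2_mem chk_cK31 8 (by decide)) (all2_mem chk_cK31 (xl 8) (by decide)) hb hab hlt ?_
    intro c hc
    show _ ≠ b ∧ ¬ (pos a < _ ∧ _) ∧ ¬ (pos (lam a) < _ ∧ _)
    simp only [K31, List.mem_cons, List.not_mem_nil, or_false] at hc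
    have key : ∀ y : α, ¬ (pos a < pos y ∧ pos y < pos b) → ¬ (pos (lam a) < pos y ∧
        pos y < pos (lam b)) → pos y ≠ pos b → y ≠ b ∧ ¬ (pos a < pos y ∧ pos y < pos b) ∧
        ¬ (pos (lam a) < pos y ∧ pos y < pos (lam b)) :=
      fun y h1 h2 h3 => ⟨fun e1 => h3 (by rw [e1]), h1, h2⟩
    rcases hc with rfl | rfl | rfl | rfl | rfl | rfl | rfl | rfl | rfl | rfl
    · exact key e (by omega) (by omega) (by omega)
    · exact key x (by omega) (by omega) (by omega)
    · exact key (lam x) (by omega) (by omega) (by omega)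
    · exact key a (by omega) (by omega) (by omega)
    · exact key m' (by omega) (by omega) (by omega)
    · exact key f (by omega) (by omega) (by omega)
    · exact key (lam a) (by omega) (by omega) (by omega)
    · exact key z (by omega) (by omega) (by omega)
    · exact key (lam z) (by omega) (by omega) (by omega)
    · exact key m (by omega) (by omega) (by omega)
  · refine gap_after h.st chkW_K.2.2.2 ((h.em1 ha).2.2 a1 a2 a3 a4) (s := 8) (by decide)
      (all2_mem chk_cK13 8 (by decide)) (all2_mem chk_cK13 (xl 8) (by decide)) hb hab hlt ?_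
    intro c hc
    show _ ≠ b ∧ ¬ (pos a < _ ∧ _) ∧ ¬ (pos (lam a) < _ ∧ _)
    simp only [K13, List.mem_cons, List.not_mem_nil, or_false] at hc
    have key : ∀ y : α, ¬ (pos a < pos y ∧ pos y < pos b) → ¬ (pos (lam a) < pos y ∧
        pos y < pos (lam b)) → pos y ≠ pos b → y ≠ b ∧ ¬ (pos a < pos y ∧ pos y < pos b) ∧
        ¬ (pos (lam a) < pos y ∧ pos y < pos (lam b)) :=
      fun y h1 h2 h3 => ⟨fun e1 => h3 (by rw [e1]), h1, h2⟩
    rcases hc with rfl | rfl | rfl | rfl | rfl | rfl | rfl | rfl | rfl | rfl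
    · exact key e (by omega) (by omega) (by omega)
    · exact key a (by omega) (by omega) (by omega)
    · exact key x (by omega) (by omega) (by omega)
    · exact key (lam x) (by omega) (by omega) (by omega)
    · exact key m' (by omega) (by omega) (by omega)
    · exact key f (by omega) (by omega) (by omega)
    · exact key z (by omega) (by omega) (by omega)
    · exact key (lam z) (by omega) (by omega) (by omega)
    · exact key (lam a) (by omega) (by omega) (by omega)
    · exact key m (by omega) (by omega) (by omega)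

/-- ROW STR: the structure theorem. -/
theorem str : StrStm := by
  intro α _ lam io e f X S hD hC hne hun hcard hL
  obtain ⟨A, hA⟩ := hD.top
  obtain ⟨B, hB⟩ := hD.bot
  obtain ⟨hnd, hy, ha, hna⟩ := setting hD hC hne hun hA hB
  have hok := hD.ok
  set m := S.m with hm
  set m' := lam S.m with hm'
  have hfree := free_LY hA hB hnd hL
  set W := cw A B e f m m' with hW
  have hperm : W.Perm (S.P ++ S.Q) := cw_perm hA hB
  have hmem : ∀ x, x ∈ W ↔ x ∈ S.P ++ S.Q := fun x => hperm.mem_iff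
  have hXW : ∀ x ∈ X, x ∈ W := fun x hx => (hmem x).2 ((hC.tok x).2 hx)
  have fr6 := no_core ⟨hy, ha, hna, hfree⟩ hXW hcard chk6
  have fr5 := no_core (F := FLY ++ FC6) ⟨hy, ha, hna, fun p hp => by
    rcases List.mem_append.1 hp with h | h
    · exact hfree p h
    · exact fr6 p h⟩ hXW hcard chk5
  have st : Set1 lam (anc e f m m') (fun x => x ∈ W) (ps W) (FLY ++ FC5) :=
    ⟨hy, ha, hna, fun p hp => by
      rcases List.mem_append.1 hp with h | h
      · exact hfree p h
      · exact fr5 p h⟩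
  -- the pairs x and z
  have hdis : ∀ x, x ∈ S.P → x ∈ S.Q → False := fun x h1 h2 =>
    (List.nodup_append.1 hok.nd).2.2 x h1 x h2 rfl
  have emem : e ∈ S.P := by rw [hA]; simp
  have fmem : f ∈ S.Q := by rw [hB]; simp
  have mmem : m ∈ S.Q := by rw [hB]; simp
  have m'mem : m' ∈ S.P := by rw [hA]; simp
  have lef : lam e = f := hok.lef
  have eW : e ∈ W := by simp [hW, cw]
  have fW : f ∈ W := by simp [hW, cw]
  have mW : m ∈ W := by simp [hW, cw]
  have m'W : m' ∈ W := by simp [hW, cw]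
  have lfe : lam f = e := by rw [← lef, hy.inv e eW]
  have lm' : lam m' = m := by rw [hm', hy.inv m mW]
  have inA : ∀ x, x ∈ S.P → lam x ∈ S.P → x ∈ A := by
    intro x hx hx'
    rw [hA] at hx
    simp only [List.mem_append, List.mem_cons, List.not_mem_nil, or_false] at hx
    rcases hx with h | h | h
    · exact h
    · exfalso; rw [h, lm'] at hx'; exact hdis _ hx' mmem
    · exfalso; rw [h, lef] at hx'; exact hdis _ hx' fmem
  have inB : ∀ x, x ∈ S.Q → lam x ∈ S.Q → x ∈ B := by
    intro x hx hx'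
    rw [hB] at hx
    simp only [List.mem_append, List.mem_cons, List.not_mem_nil, or_false] at hx
    rcases hx with h | h | h
    · exact h
    · exfalso; rw [h] at hx'; exact hdis _ m'mem hx'
    · exfalso; rw [h, lfe] at hx'; exact hdis _ emem hx'
  obtain ⟨x, A₁, A₂, A₃, eA⟩ : ∃ x A₁ A₂ A₃, A = A₁ ++ x :: (A₂ ++ lam x :: A₃) := by
    obtain ⟨x, hx, hx'⟩ := hD.tt
    have i1 : lam (lam x) = x := hok.inv x (List.mem_append_left _ hx)
    have h1 := inA x hx hx'
    have h2 := inA (lam x) hx' (by rw [i1]; exact hx)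
    rcases two_split h1 h2 (hok.ne x (List.mem_append_left _ hx)).symm with
      ⟨A₁, A₂, A₃, h⟩ | ⟨A₁, A₂, A₃, h⟩
    · exact ⟨x, A₁, A₂, A₃, h⟩
    · exact ⟨lam x, A₁, A₂, A₃, by rw [i1]; exact h⟩
  obtain ⟨z, B₁, B₂, B₃, eB⟩ : ∃ z B₁ B₂ B₃, B = B₁ ++ z :: (B₂ ++ lam z :: B₃) := by
    obtain ⟨z, hz, hz'⟩ := hD.bb
    have i1 : lam (lam z) = z := hok.inv z (List.mem_append_right _ hz)
    have h1 := inB z hz hz'
    have h2 := inB (lam z) hz' (by rw [i1]; exact hz)
    rcases two_split h1 h2 (hok.ne z (List.mem_append_right _ hz)).symm with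
      ⟨B₁, B₂, B₃, h⟩ | ⟨B₁, B₂, B₃, h⟩
    · exact ⟨z, B₁, B₂, B₃, h⟩
    · exact ⟨lam z, B₁, B₂, B₃, by rw [i1]; exact h⟩
  -- the order of the special tokens
  have hseq : [e, x, lam x, m', f, z, lam z, m].Sublist W := by
    have e1 : W = [e] ++ (A₁ ++ ([x] ++ (A₂ ++ ([lam x] ++ (A₃ ++ ([m'] ++ ([f] ++
        (B₁ ++ ([z] ++ (B₂ ++ ([lam z] ++ (B₃ ++ [m])))))))))))) := by
      rw [hW, cw, eA, eB]; simp
    rw [e1]
    have s1 : [lam z, m].Sublist ([lam z] ++ (B₃ ++ [m])) :=
      (List.Sublist.refl [lam z]).append ((List.nil_sublist B₃).append (List.Sublist.refl [m]))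
    have s2 : [z, lam z, m].Sublist ([z] ++ (B₂ ++ ([lam z] ++ (B₃ ++ [m])))) :=
      (List.Sublist.refl [z]).append ((List.nil_sublist B₂).append s1)
    have s3 : [m', f, z, lam z, m].Sublist ([m'] ++ ([f] ++ (B₁ ++ ([z] ++
        (B₂ ++ ([lam z] ++ (B₃ ++ [m]))))))) :=
      (List.Sublist.refl [m']).append ((List.Sublist.refl [f]).append
        ((List.nil_sublist B₁).append s2))
    have s4 : [lam x, m', f, z, lam z, m].Sublist ([lam x] ++ (A₃ ++ ([m'] ++ ([f] ++
        (B₁ ++ ([z] ++ (B₂ ++ ([lam z] ++ (B₃ ++ [m]))))))))) :=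
      (List.Sublist.refl [lam x]).append ((List.nil_sublist A₃).append s3)
    have s5 : [x, lam x, m', f, z, lam z, m].Sublist ([x] ++ (A₂ ++ ([lam x] ++ (A₃ ++
        ([m'] ++ ([f] ++ (B₁ ++ ([z] ++ (B₂ ++ ([lam z] ++ (B₃ ++ [m]))))))))))) :=
      (List.Sublist.refl [x]).append ((List.nil_sublist A₂).append s4)
    exact (List.Sublist.refl [e]).append ((List.nil_sublist A₁).append s5)
  have hord := pw_of_sub hnd hseq
  have ho : ps W e < ps W x ∧ ps W x < ps W (lam x) ∧ ps W (lam x) < ps W m' ∧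
      ps W m' < ps W f ∧ ps W f < ps W z ∧ ps W z < ps W (lam z) ∧ ps W (lam z) < ps W m := by
    simp only [List.pairwise_cons, List.mem_cons, List.not_mem_nil, or_false,
      forall_eq_or_imp, forall_eq] at hord
    simp only [ps]
    omega
  obtain ⟨o1, o2, o3, o4, o5, o6, o7⟩ := ho
  have xW : x ∈ W := hseq.subset (by simp)
  have zW : z ∈ W := hseq.subset (by simp)
  have fr : Fr lam e f m m' x z W (ps W) :=
    ⟨st, lef, rfl, o1, o2, o3, o4, o5, o6, o7, eW, mW, xW, zW⟩
  have cls : ∀ y ∈ W, ps W y ≠ ps W e → ps W y ≠ ps W f → ps W y ≠ ps W m → ps W y ≠ ps W m' →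
      ps W y ≠ ps W x → ps W y ≠ ps W (lam x) → ps W y ≠ ps W z → ps W y ≠ ps W (lam z) → _ :=
    fun y hyW n1 n2 n3 n4 n5 n6 n7 n8 => fr.cls hyW (fun c hc hcy => by
      simp only [K0, List.mem_cons, List.not_mem_nil, or_false] at hc
      rcases hc with rfl | rfl | rfl | rfl | rfl | rfl | rfl | rfl
      · exact n1 (by rw [← hcy]; rfl)
      · exact n5 (by rw [← hcy]; rfl)
      · exact n6 (by rw [← hcy]; rfl)
      · exact n4 (by rw [← hcy]; rfl)
      · exact n2 (by rw [← hcy]; rfl)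
      · exact n7 (by rw [← hcy]; rfl)
      · exact n8 (by rw [← hcy]; rfl)
      · exact n3 (by rw [← hcy]; rfl))
  -- membership by positions
  have mA1 : ∀ g ∈ W, (g ∈ A₁ ↔ ps W e < ps W g ∧ ps W g < ps W x) := by
    intro g hg
    have e1 : W = [] ++ e :: (A₁ ++ x :: ((A₂ ++ lam x :: A₃) ++ [m'] ++ f :: (B ++ [m]))) := by
      rw [hW, cw, eA]; simp
    have := btw_iff (g := g) (by rw [← e1]; exact hnd) (by rw [← e1]; exact hg)
    rw [← e1] at this
    simpa [ps] using this
  have mA2 : ∀ g ∈ W, (g ∈ A₂ ↔ ps W x < ps W g ∧ ps W g < ps W (lam x)) := by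
    intro g hg
    have e1 : W = (e :: A₁) ++ x :: (A₂ ++ lam x :: (A₃ ++ [m'] ++ f :: (B ++ [m]))) := by
      rw [hW, cw, eA]; simp
    have := btw_iff (g := g) (by rw [← e1]; exact hnd) (by rw [← e1]; exact hg)
    rw [← e1] at this
    simpa [ps] using this
  have mA3 : ∀ g ∈ W, (g ∈ A₃ ↔ ps W (lam x) < ps W g ∧ ps W g < ps W m') := by
    intro g hg
    have e1 : W = (e :: (A₁ ++ x :: A₂)) ++ lam x :: (A₃ ++ m' :: (f :: (B ++ [m]))) := by
      rw [hW, cw, eA]; simp
    have := btw_iff (g := g) (by rw [← e1]; exact hnd) (by rw [← e1]; exact hg)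
    rw [← e1] at this
    simpa [ps] using this
  have mB1 : ∀ g ∈ W, (g ∈ B₁ ↔ ps W f < ps W g ∧ ps W g < ps W z) := by
    intro g hg
    have e1 : W = (e :: (A ++ [m'])) ++ f :: (B₁ ++ z :: ((B₂ ++ lam z :: B₃) ++ [m])) := by
      rw [hW, cw, eB]; simp
    have := btw_iff (g := g) (by rw [← e1]; exact hnd) (by rw [← e1]; exact hg)
    rw [← e1] at this
    simpa [ps] using this
  have mB2 : ∀ g ∈ W, (g ∈ B₂ ↔ ps W z < ps W g ∧ ps W g < ps W (lam z)) := by
    intro g hg
    have e1 : W = (e :: ((A ++ [m']) ++ f :: B₁)) ++ z :: (B₂ ++ lam z :: (B₃ ++ [m])) := by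
      rw [hW, cw, eB]; simp
    have := btw_iff (g := g) (by rw [← e1]; exact hnd) (by rw [← e1]; exact hg)
    rw [← e1] at this
    simpa [ps] using this
  have mB3 : ∀ g ∈ W, (g ∈ B₃ ↔ ps W (lam z) < ps W g ∧ ps W g < ps W m) := by
    intro g hg
    have e1 : W = (e :: ((A ++ [m']) ++ f :: (B₁ ++ z :: B₂))) ++ lam z :: (B₃ ++ m :: []) := by
      rw [hW, cw, eB]; simp
    have := btw_iff (g := g) (by rw [← e1]; exact hnd) (by rw [← e1]; exact hg)
    rw [← e1] at this
    simpa [ps] using this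
  have wA1 : ∀ g ∈ A₁, g ∈ W := fun g hg => by rw [hW, cw, eA]; simp [hg]
  have wA2 : ∀ g ∈ A₂, g ∈ W := fun g hg => by rw [hW, cw, eA]; simp [hg]
  have wA3 : ∀ g ∈ A₃, g ∈ W := fun g hg => by rw [hW, cw, eA]; simp [hg]
  have wB1 : ∀ g ∈ B₁, g ∈ W := fun g hg => by rw [hW, cw, eB]; simp [hg]
  have wB2 : ∀ g ∈ B₂, g ∈ W := fun g hg => by rw [hW, cw, eB]; simp [hg]
  have wB3 : ∀ g ∈ B₃, g ∈ W := fun g hg => by rw [hW, cw, eB]; simp [hg]
  -- partners
  have cA1 : ∀ g ∈ A₁, ps W e < ps W g ∧ ps W g < ps W x ∧ ps W (lam z) < ps W (lam g) ∧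
      ps W (lam g) < ps W m := by
    intro g hg
    obtain ⟨g1, g2⟩ := (mA1 g (wA1 g hg)).1 hg
    have := cls g (wA1 g hg) (by omega) (by omega) (by omega) (by omega) (by omega) (by omega)
      (by omega) (by omega)
    omega
  have cA2 : ∀ g ∈ A₂, ps W x < ps W g ∧ ps W g < ps W (lam x) ∧ ps W z < ps W (lam g) ∧
      ps W (lam g) < ps W (lam z) := by
    intro g hg
    obtain ⟨g1, g2⟩ := (mA2 g (wA2 g hg)).1 hg
    have := cls g (wA2 g hg) (by omega) (by omega) (by omega) (by omega) (by omega) (by omega)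
      (by omega) (by omega)
    omega
  have cA3 : ∀ g ∈ A₃, ps W (lam x) < ps W g ∧ ps W g < ps W m' ∧ ps W f < ps W (lam g) ∧
      ps W (lam g) < ps W z := by
    intro g hg
    obtain ⟨g1, g2⟩ := (mA3 g (wA3 g hg)).1 hg
    have := cls g (wA3 g hg) (by omega) (by omega) (by omega) (by omega) (by omega) (by omega)
      (by omega) (by omega)
    omega
  have cB1 : ∀ g ∈ B₁, ps W (lam x) < ps W (lam g) ∧ ps W (lam g) < ps W m' := by
    intro g hg
    obtain ⟨g1, g2⟩ := (mB1 g (wB1 g hg)).1 hg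
    have := cls g (wB1 g hg) (by omega) (by omega) (by omega) (by omega) (by omega) (by omega)
      (by omega) (by omega)
    omega
  have cB2 : ∀ g ∈ B₂, ps W x < ps W (lam g) ∧ ps W (lam g) < ps W (lam x) := by
    intro g hg
    obtain ⟨g1, g2⟩ := (mB2 g (wB2 g hg)).1 hg
    have := cls g (wB2 g hg) (by omega) (by omega) (by omega) (by omega) (by omega) (by omega)
      (by omega) (by omega)
    omega
  have cB3 : ∀ g ∈ B₃, ps W e < ps W (lam g) ∧ ps W (lam g) < ps W x := by
    intro g hg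
    obtain ⟨g1, g2⟩ := (mB3 g (wB3 g hg)).1 hg
    have := cls g (wB3 g hg) (by omega) (by omega) (by omega) (by omega) (by omega) (by omega)
      (by omega) (by omega)
    omega
  -- sorted
  have hsort : ∀ l : List α, l.Sublist W → l.Pairwise fun a b => ps W a < ps W b := by
    intro l hl
    exact (pw_of_sub hnd hl).imp (fun h => by simpa [ps] using h)
  have sA : ∀ l : List α, l.Sublist A → l.Sublist W := by
    intro l hl
    rw [hW, cw]
    refine List.Sublist.cons _ ?_
    exact hl.trans ((List.sublist_append_left A [m']).trans (List.sublist_append_left _ _))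
  have sB : ∀ l : List α, l.Sublist B → l.Sublist W := by
    intro l hl
    rw [hW, cw]
    refine List.Sublist.cons _ ?_
    refine List.Sublist.trans ?_ (List.sublist_append_right _ _)
    refine List.Sublist.cons _ ?_
    exact hl.trans (List.sublist_append_left _ _)
  have sA1 : A₁.Sublist A := by rw [eA]; exact List.sublist_append_left _ _
  have sA2 : A₂.Sublist A := by
    rw [eA]
    exact ((List.sublist_append_left A₂ _).cons _).trans (List.sublist_append_right _ _)
  have sA3 : A₃.Sublist A := by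
    rw [eA]
    exact ((((List.Sublist.refl A₃).cons (lam x)).trans (List.sublist_append_right A₂ _)).cons x).trans
      (List.sublist_append_right A₁ _)
  have sB1 : B₁.Sublist B := by rw [eB]; exact List.sublist_append_left _ _
  have sB2 : B₂.Sublist B := by
    rw [eB]
    exact ((List.sublist_append_left B₂ _).cons _).trans (List.sublist_append_right _ _)
  have sB3 : B₃.Sublist B := by
    rw [eB]
    exact ((((List.Sublist.refl B₃).cons (lam z)).trans (List.sublist_append_right B₂ _)).cons z).trans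
      (List.sublist_append_right B₁ _)
  -- the three reversals
  have r1 : B₃ = (A₁.map lam).reverse := by
    refine rev_eq (pos := ps W) (hsort _ (sA _ sA1)) (hsort _ (sB _ sB3)) ?_ ?_ ?_ ?_
    · intro a haA
      exact (mB3 _ (hy.mem a (wA1 a haA))).2 (cA1 a haA).2.2
    · intro b hb
      exact (mA1 _ (hy.mem b (wB3 b hb))).2 (cB3 b hb)
    · intro b hb
      exact hy.inv b (wB3 b hb)
    · intro a haA b hbA hab
      have h1 := cA1 a haA
      have h2 := cA1 b hbA
      exact fr.dec (wA1 a haA) (wA1 b hbA) (Or.inr (Or.inr ⟨h1.1, h1.2.1, h1.2.2.1, h1.2.2.2,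
        h2.1, h2.2.1, h2.2.2.1, h2.2.2.2⟩)) hab
  have r2 : B₂ = (A₂.map lam).reverse := by
    refine rev_eq (pos := ps W) (hsort _ (sA _ sA2)) (hsort _ (sB _ sB2)) ?_ ?_ ?_ ?_
    · intro a haA
      exact (mB2 _ (hy.mem a (wA2 a haA))).2 (cA2 a haA).2.2
    · intro b hb
      exact (mA2 _ (hy.mem b (wB2 b hb))).2 (cB2 b hb)
    · intro b hb
      exact hy.inv b (wB2 b hb)
    · intro a haA b hbA hab
      have h1 := cA2 a haA
      have h2 := cA2 b hbA
      exact fr.dec (wA2 a haA) (wA2 b hbA) (Or.inl ⟨h1.1, h1.2.1, h1.2.2.1, h1.2.2.2,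
        h2.1, h2.2.1, h2.2.2.1, h2.2.2.2⟩) hab
  have r3 : B₁ = (A₃.map lam).reverse := by
    refine rev_eq (pos := ps W) (hsort _ (sA _ sA3)) (hsort _ (sB _ sB1)) ?_ ?_ ?_ ?_
    · intro a haA
      exact (mB1 _ (hy.mem a (wA3 a haA))).2 (cA3 a haA).2.2
    · intro b hb
      exact (mA3 _ (hy.mem b (wB1 b hb))).2 (cB1 b hb)
    · intro b hb
      exact hy.inv b (wB1 b hb)
    · intro a haA b hbA hab
      have h1 := cA3 a haA
      have h2 := cA3 b hbA
      exact fr.dec (wA3 a haA) (wA3 b hbA) (Or.inr (Or.inl ⟨h1.1, h1.2.1, h1.2.2.1, h1.2.2.2,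
        h2.1, h2.2.1, h2.2.2.1, h2.2.2.2⟩)) hab
  refine ⟨x, z, A₁, A₂, A₃, ?_, ?_⟩
  · rw [hA, eA]; simp; exact hm'
  · rw [hB, eB, ← r1, ← r2, ← r3]; simp; exact hm

end Pool.Agent.QuadEq.Star.Str

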