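import Pool.Agent.Lib.MP_b7851d_lc.Star.N3a.LY

/-!
# N3a, row STR: patterns by positions and the gap lemma

A pattern is a word `q` over `ℕ` in the cyclic form `e A m1 f B m0` (`e = 0`, `f = 1`, `m0 = 2`,
`m1 = 3`).  It occurs in the set `W` of tokens with positions `pos` if `Em` holds.
-/

namespace Pool.Agent.QuadEq.Star.Str

set_option linter.unusedSectionVars false

open Pool.Agent.QuadEq.Star

lemma xl_xl (x : ℕ) : xl (xl x) = x := by unfold xl; split_ifs <;> omega

lemma xl_ne (x : ℕ) : xl x ≠ x := by unfold xl; split_ifs <;> omega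

lemma xl_lt4 {x : ℕ} (h : x < 4) : xl x < 4 := by unfold xl; split_ifs <;> omega

lemma xl_inj {x y : ℕ} (h : xl x = xl y) : x = y := by rw [← xl_xl x, h, xl_xl]

/-- all insertions of `t` into a word -/
def insAll (t : ℕ) : List ℕ → List (List ℕ)
  | [] => [[t]]
  | a :: l => (t :: a :: l) :: (insAll t l).map (fun r => a :: r)

lemma mem_insAll (t : ℕ) (l₁ l₂ : List ℕ) : l₁ ++ t :: l₂ ∈ insAll t (l₁ ++ l₂) := by
  induction l₁ with
  | nil => cases l₂ <;> simp [insAll]
  | cons a l ih =>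
    simp only [List.cons_append, insAll, List.mem_cons, List.mem_map]
    right
    exact ⟨_, ih, rfl⟩

lemma insL_split {s : ℕ} {Z l₁ l₂ : List ℕ} (h : s ∉ l₁) :
    insL s Z (l₁ ++ s :: l₂) = l₁ ++ s :: (Z ++ l₂) := by
  induction l₁ with
  | nil => simp [insL]
  | cons a l ih =>
    have h1 : a ≠ s := fun e => h (by simp [e])
    have h2 : s ∉ l := fun e => h (by simp [e])
    simp [insL, h1, ih h2]

lemma mem_insL {s t c : ℕ} {l : List ℕ} (hs : s ∈ l) : c ∈ insL s [t] l ↔ c = t ∨ c ∈ l := by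
  induction l with
  | nil => simp at hs
  | cons a l ih =>
    by_cases h : a = s
    · subst h
      simp only [insL, if_true, List.mem_cons, List.mem_append, List.not_mem_nil, or_false]
      tauto
    · have h1 : s ∈ l := by
        rcases List.mem_cons.1 hs with e | e
        · exact absurd e.symm h
        · exact e
      simp only [insL, h, if_false, List.mem_cons, ih h1]
      tauto

/-- insertion right after `s` keeps the order -/
lemma insL_pw {p : ℕ → ℤ} {l : List ℕ} {s t : ℕ} (hs : s ∈ l)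
    (h : l.Pairwise fun a b => p a < p b) (hst : p s < p t)
    (hn : ∀ c ∈ l, p s < p c → p t < p c) :
    (insL s [t] l).Pairwise fun a b => p a < p b := by
  induction l with
  | nil => simp at hs
  | cons a l ih =>
    rw [List.pairwise_cons] at h
    by_cases e : a = s
    · subst e
      simp only [insL, if_true, List.singleton_append]
      rw [List.pairwise_cons, List.pairwise_cons]
      refine ⟨?_, ?_, h.2⟩
      · intro c hc
        rcases List.mem_cons.1 hc with e | e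
        · rw [e]; exact hst
        · exact h.1 c e
      · intro c hc
        exact hn c (List.mem_cons_of_mem _ hc) (h.1 c hc)
    · have h1 : s ∈ l := by
        rcases List.mem_cons.1 hs with e' | e'
        · exact absurd e'.symm e
        · exact e'
      simp only [insL, e, if_false]
      rw [List.pairwise_cons]
      refine ⟨?_, ih h1 h.2 (fun c hc => hn c (List.mem_cons_of_mem _ hc))⟩
      intro c hc
      rcases (mem_insL h1).1 hc with e' | e'
      · rw [e']; exact lt_trans (h.1 s h1) hst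
      · exact h.1 c e'

/-- insertion somewhere -/
lemma insAll_pw {p : ℕ → ℤ} {l : List ℕ} {t : ℕ}
    (h : l.Pairwise fun a b => p a < p b) (hn : ∀ c ∈ l, p c ≠ p t) :
    ∃ q ∈ insAll t l, (q.Pairwise fun a b => p a < p b) ∧ ∀ c, c ∈ q ↔ c = t ∨ c ∈ l := by
  induction l with
  | nil => exact ⟨[t], by simp [insAll], by simp, by simp⟩
  | cons a l ih =>
    rw [List.pairwise_cons] at h
    rcases lt_or_gt_of_ne (hn a (List.mem_cons_self ..)) with e | e
    · obtain ⟨q, hq, hq1, hq2⟩ := ih h.2 (fun c hc => hn c (List.mem_cons_of_mem _ hc))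
      refine ⟨a :: q, ?_, ?_, ?_⟩
      · simp only [insAll, List.mem_cons, List.mem_map]
        right
        exact ⟨q, hq, rfl⟩
      · rw [List.pairwise_cons]
        refine ⟨?_, hq1⟩
        intro c hc
        rcases (hq2 c).1 hc with e' | e'
        · rw [e']; exact e
        · exact h.1 c e'
      · intro c
        rw [List.mem_cons, hq2, List.mem_cons]
        tauto
    · refine ⟨t :: a :: l, by simp [insAll], ?_, by simp⟩
      rw [List.pairwise_cons, List.pairwise_cons]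
      refine ⟨?_, h.1, h.2⟩
      intro c hc
      rcases List.mem_cons.1 hc with e' | e'
      · rw [e']; exact e
      · exact lt_trans e (h.1 c e')

variable {α : Type}

/-- the tokens and their positions -/
structure Hy (lam : α → α) (W : α → Prop) (pos : α → ℤ) : Prop where
  inv : ∀ x, W x → lam (lam x) = x
  ne : ∀ x, W x → lam x ≠ x
  mem : ∀ x, W x → W (lam x)
  inj : ∀ x y, W x → W y → pos x = pos y → x = y

/-- the pattern `q` occurs by `ψ` -/
structure Em (lam : α → α) (an : ℕ → α) (W : α → Prop) (pos : α → ℤ) (q : List ℕ)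
    (ψ : ℕ → α) : Prop where
  an : ∀ x < 4, ψ x = an x
  cp : ∀ x ∈ q, ψ (xl x) = lam (ψ x)
  im : ∀ x ∈ q, W (ψ x)
  pw : q.Pairwise fun a b => pos (ψ a) < pos (ψ b)

lemma Hy.neg {lam : α → α} {W : α → Prop} {pos : α → ℤ} (h : Hy lam W pos) :
    Hy lam W (fun x => - pos x) :=
  ⟨h.inv, h.ne, h.mem, fun x y hx hy e => h.inj x y hx hy (by simpa using e)⟩

lemma Em.rev {lam : α → α} {an : ℕ → α} {W : α → Prop} {pos : α → ℤ} {q : List ℕ}
    {ψ : ℕ → α} (h : Em lam an W pos q ψ) : Em lam an W (fun x => - pos x) q.reverse ψ := by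
  refine ⟨h.an, fun x hx => h.cp x (List.mem_reverse.1 hx), fun x hx => h.im x (List.mem_reverse.1 hx),
    ?_⟩
  rw [List.pairwise_reverse]
  exact h.pw.imp (fun h => by simpa using h)

lemma Em.rev' {lam : α → α} {an : ℕ → α} {W : α → Prop} {pos : α → ℤ} {q : List ℕ}
    {ψ : ℕ → α} (h : Em lam an W (fun x => - pos x) q ψ) : Em lam an W pos q.reverse ψ := by
  have := h.rev
  simpa using this

/-- the word with `y` parallel to `s` and `r` in the first gap -/
def gapq (K : List ℕ) (s : ℕ) : List ℕ := insL s [22] (insL (xl s) [21] (insL s [20] K))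

/-- the extension of `ψ` -/
def ex (ψ : ℕ → α) (y y' r r' : α) (n : ℕ) : α :=
  if n = 20 then y else if n = 21 then y' else if n = 22 then r else if n = 23 then r' else ψ n

lemma ex_lt {ψ : ℕ → α} {y y' r r' : α} {n : ℕ} (h : n < 20) : ex ψ y y' r r' n = ψ n := by
  unfold ex
  split_ifs <;> first | omega | rfl

lemma step {lam : α → α} {an : ℕ → α} {W : α → Prop} {pos : α → ℤ} (h : Hy lam W pos)
    {K : List ℕ} {ψ : ℕ → α} (hK : Em lam an W pos K ψ) (hK20 : ∀ c ∈ K, c < 20)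
    (hKx : ∀ c ∈ K, xl c ∈ K) {s : ℕ} (hs : s ∈ K)
    (hc : ∀ q ∈ insAll 23 (gapq K s), [xl s, 23, 21].Sublist q ∨
      ∀ ψ, (∀ c, c ∈ q ↔ c = 23 ∨ c ∈ gapq K s) → ¬ Em lam an W pos q ψ)
    {Y r : α} (hY : W Y) (hr : W r) (h1 : pos (ψ s) < pos Y)
    (h2 : pos (lam (ψ s)) < pos (lam Y))
    (h3 : ∀ c ∈ K, ψ c ≠ Y ∧ ¬ (pos (ψ s) < pos (ψ c) ∧ pos (ψ c) < pos Y) ∧
      ¬ (pos (lam (ψ s)) < pos (ψ c) ∧ pos (ψ c) < pos (lam Y)))
    (hr1 : pos (ψ s) < pos r) (hr2 : pos r < pos Y) :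
    pos (lam (ψ s)) < pos (lam r) ∧ pos (lam r) < pos (lam Y) := by
  have hs20 := hK20 s hs
  have hxs := hKx s hs
  have hxs20 := hK20 _ hxs
  have hX : W (ψ s) := hK.im s hs
  have hX' : ψ (xl s) = lam (ψ s) := hK.cp s hs
  have hneq : ∀ x y, W x → W y → x ≠ y → pos x ≠ pos y := fun x y hx hy hne e =>
    hne (h.inj x y hx hy e)
  -- facts on the positions
  have hXX' : pos (ψ s) ≠ pos (lam (ψ s)) := hneq _ _ hX (h.mem _ hX) (h.ne _ hX).symm
  have f1 := (h3 s hs)
  have f2 := (h3 _ hxs)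
  rw [hX'] at f2
  have hYY' : pos Y ≠ pos (lam Y) := hneq _ _ hY (h.mem _ hY) (h.ne _ hY).symm
  -- Y is not in the second gap, lam Y is not in the first gap
  have g1 : ¬ (pos (lam (ψ s)) < pos Y ∧ pos Y < pos (lam Y)) := by
    rintro ⟨a, b⟩
    rcases lt_or_gt_of_ne hXX' with e | e
    · exact f2.2.1 ⟨e, a⟩
    · exact f1.2.2 ⟨e, by omega⟩
  have g2 : ¬ (pos (ψ s) < pos (lam Y) ∧ pos (lam Y) < pos Y) := by
    rintro ⟨a, b⟩
    rcases lt_or_gt_of_ne hXX' with e | e
    · exact f2.2.1 ⟨e, by omega⟩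
    · exact f1.2.2 ⟨e, a⟩
  have hKY' : ∀ c ∈ K, ψ c ≠ lam Y := by
    intro c hc e
    have e1 : ψ (xl c) = Y := by rw [hK.cp c hc, e, h.inv Y hY]
    exact (h3 _ (hKx c hc)).1 e1
  have hKr : ∀ c ∈ K, ψ c ≠ r := by
    intro c hc e
    exact (h3 c hc).2.1 (by rw [e]; exact ⟨hr1, hr2⟩)
  have hKr' : ∀ c ∈ K, ψ c ≠ lam r := by
    intro c hc e
    have e1 : ψ (xl c) = r := by rw [hK.cp c hc, e, h.inv r hr]
    exact hKr _ (hKx c hc) e1
  have hrY : r ≠ Y := fun e => by rw [e] at hr2; omega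
  have hrY' : r ≠ lam Y := fun e => by
    rw [e] at hr1 hr2
    exact g2 ⟨hr1, hr2⟩
  have hr'Y : lam r ≠ Y := fun e => hrY' (by rw [← e, h.inv r hr])
  have hr'Y' : lam r ≠ lam Y := fun e => hrY (by rw [← h.inv r hr, e, h.inv Y hY])
  set φ := ex ψ Y (lam Y) r (lam r) with hφ
  have p20 : φ 20 = Y := rfl
  have p21 : φ 21 = lam Y := rfl
  have p22 : φ 22 = r := rfl
  have p23 : φ 23 = lam r := rfl
  have pK : ∀ c ∈ K, φ c = ψ c := fun c hc => ex_lt (hK20 c hc)
  have q0 : K.Pairwise fun a b => pos (φ a) < pos (φ b) := by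
    refine List.Pairwise.imp_of_mem ?_ hK.pw
    intro a b ha hb hab
    rw [pK a ha, pK b hb]; exact hab
  -- first insertion
  have q1 : (insL s [20] K).Pairwise fun a b => pos (φ a) < pos (φ b) := by
    refine insL_pw (p := fun c => pos (φ c)) hs q0 ?_ ?_
    · rw [pK s hs, p20]; exact h1
    · intro c hc hlt
      rw [pK s hs, pK c hc] at hlt
      rw [pK c hc, p20]
      have := (h3 c hc).2.1
      have := hneq _ _ (hK.im c hc) hY (h3 c hc).1
      omega
  have hxs1 : xl s ∈ insL s [20] K := (mem_insL hs).2 (Or.inr hxs)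
  have q2 : (insL (xl s) [21] (insL s [20] K)).Pairwise fun a b => pos (φ a) < pos (φ b) := by
    refine insL_pw (p := fun c => pos (φ c)) hxs1 q1 ?_ ?_
    · rw [pK _ hxs, p21, hX']; exact h2
    · intro c hc hlt
      rw [pK _ hxs, hX'] at hlt
      rw [p21]
      rcases (mem_insL hs).1 hc with e | e
      · rw [e, p20] at hlt ⊢
        omega
      · rw [pK c e] at hlt ⊢
        have := (h3 c e).2.2
        have := hneq _ _ (hK.im c e) (h.mem _ hY) (hKY' c e)
        omega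
  have hs2 : s ∈ insL (xl s) [21] (insL s [20] K) :=
    (mem_insL hxs1).2 (Or.inr ((mem_insL hs).2 (Or.inr hs)))
  have m3 : ∀ c, c ∈ gapq K s ↔ c = 22 ∨ c = 21 ∨ c = 20 ∨ c ∈ K := by
    intro c
    rw [gapq, mem_insL hs2, mem_insL hxs1, mem_insL hs]
  have q3 : (gapq K s).Pairwise fun a b => pos (φ a) < pos (φ b) := by
    refine insL_pw (p := fun c => pos (φ c)) hs2 q2 ?_ ?_
    · rw [pK s hs, p22]; exact hr1
    · intro c hc hlt
      rw [pK s hs] at hlt
      rw [p22]
      rcases (mem_insL hxs1).1 hc with e | e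
      · rw [e, p21] at hlt ⊢
        omega
      · rcases (mem_insL hs).1 e with e | e
        · rw [e, p20]; exact hr2
        · rw [pK c e] at hlt ⊢
          have := (h3 c e).2.1
          have := hneq _ _ (hK.im c e) hY (h3 c e).1
          omega
  obtain ⟨q, hq, hq1, hq2⟩ := insAll_pw (p := fun c => pos (φ c)) (t := 23) q3 (by
    intro c hc
    rw [p23]
    rcases (m3 c).1 hc with e | e | e | e
    · rw [e, p22]; exact hneq _ _ hr (h.mem _ hr) (h.ne _ hr).symm
    · rw [e, p21]; exact hneq _ _ (h.mem _ hY) (h.mem _ hr) hr'Y'.symm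
    · rw [e, p20]; exact hneq _ _ hY (h.mem _ hr) hr'Y.symm
    · rw [pK c e]; exact hneq _ _ (hK.im c e) (h.mem _ hr) (hKr' c e))
  rcases hc q hq with e | e
  · have := hq1.sublist e
    simp only [List.pairwise_cons, List.mem_cons, List.not_mem_nil, or_false, forall_eq_or_imp,
      forall_eq] at this
    rw [pK _ hxs, hX', p23, p21] at this
    exact ⟨this.1.1, this.2.1⟩
  · exfalso
    refine e φ hq2 ⟨?_, ?_, ?_, hq1⟩
    · intro x hx
      rw [hφ, ex_lt (by omega)]
      exact hK.an x hx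
    · intro x hx
      rcases (hq2 x).1 hx with e | e
      · subst e
        show φ 22 = lam (φ 23)
        rw [p22, p23, h.inv r hr]
      rcases (m3 x).1 e with e | e | e | e
      · subst e
        show φ 23 = lam (φ 22)
        rw [p22, p23]
      · subst e
        show φ 20 = lam (φ 21)
        rw [p20, p21, h.inv Y hY]
      · subst e
        show φ 21 = lam (φ 20)
        rw [p20, p21]
      · rw [pK _ (hKx x e), pK x e]
        exact hK.cp x e
    · intro x hx
      rcases (hq2 x).1 hx with e | e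
      · rw [e, p23]; exact h.mem _ hr
      rcases (m3 x).1 e with e | e | e | e
      · rw [e, p22]; exact hr
      · rw [e, p21]; exact h.mem _ hY
      · rw [e, p20]; exact hY
      · rw [pK x e]; exact hK.im x e

/-- THE GAP LEMMA: no token `Y` is parallel to `ψ s`. -/
theorem gap {lam : α → α} {an : ℕ → α} {W : α → Prop} {pos : α → ℤ} (h : Hy lam W pos)
    (hU : ∀ X Y, W X → W Y → (∀ x < 4, an x ≠ Y) → pos X < pos Y →
      (∀ g, W g → ¬ (pos X < pos g ∧ pos g < pos Y)) → pos (lam X) < pos (lam Y) →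
      (∀ g, W g → ¬ (pos (lam X) < pos g ∧ pos g < pos (lam Y))) → False)
    {K : List ℕ} {ψ : ℕ → α} (hK : Em lam an W pos K ψ) (hK20 : ∀ c ∈ K, c < 20)
    (hKx : ∀ c ∈ K, xl c ∈ K) (hK4 : ∀ x < 4, x ∈ K) {s₀ : ℕ} (hs₀ : s₀ ∈ K)
    (hc : ∀ s, s = s₀ ∨ s = xl s₀ → ∀ q ∈ insAll 23 (gapq K s), [xl s, 23, 21].Sublist q ∨
      ∀ ψ, (∀ c, c ∈ q ↔ c = 23 ∨ c ∈ gapq K s) → ¬ Em lam an W pos q ψ) :
    ∀ n : ℕ, ∀ s, (s = s₀ ∨ s = xl s₀) → ∀ Y, W Y →
      (pos Y - pos (ψ s)) + (pos (lam Y) - pos (lam (ψ s))) ≤ n →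
      pos (ψ s) < pos Y → pos (lam (ψ s)) < pos (lam Y) →
      (∀ c ∈ K, ψ c ≠ Y ∧ ¬ (pos (ψ s) < pos (ψ c) ∧ pos (ψ c) < pos Y) ∧
        ¬ (pos (lam (ψ s)) < pos (ψ c) ∧ pos (ψ c) < pos (lam Y))) → False := by
  intro n
  induction n with
  | zero => intro s hs Y hY h0 h1 h2 h3; push_cast at h0; omega
  | succ n ih =>
    intro s hs Y hY h0 h1 h2 h3
    have hsK : s ∈ K := by
      rcases hs with e | e
      · rw [e]; exact hs₀
      · rw [e]; exact hKx _ hs₀
    have hX : W (ψ s) := hK.im s hsK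
    have hX' : ψ (xl s) = lam (ψ s) := hK.cp s hsK
    by_cases g1 : ∃ r, W r ∧ pos (ψ s) < pos r ∧ pos r < pos Y
    · obtain ⟨r, hr, hr1, hr2⟩ := g1
      obtain ⟨a, b⟩ := step h hK hK20 hKx hsK (hc s hs) hY hr h1 h2 h3 hr1 hr2
      refine ih s hs r hr (by push_cast at h0; omega) hr1 a ?_
      intro c hcK
      obtain ⟨k1, k2, k3⟩ := h3 c hcK
      refine ⟨fun e => k2 (by rw [e]; exact ⟨hr1, hr2⟩), by omega, by omega⟩
    by_cases g2 : ∃ r, W r ∧ pos (lam (ψ s)) < pos r ∧ pos r < pos (lam Y)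
    · obtain ⟨r, hr, hr1, hr2⟩ := g2
      have hs' : xl s = s₀ ∨ xl s = xl s₀ := by
        rcases hs with e | e
        · right; rw [e]
        · left; rw [e, xl_xl]
      have h3' : ∀ c ∈ K, ψ c ≠ lam Y ∧ ¬ (pos (ψ (xl s)) < pos (ψ c) ∧ pos (ψ c) < pos (lam Y)) ∧
          ¬ (pos (lam (ψ (xl s))) < pos (ψ c) ∧ pos (ψ c) < pos (lam (lam Y))) := by
        intro c hcK
        obtain ⟨k1, k2, k3⟩ := h3 c hcK
        rw [hX', h.inv _ hX, h.inv _ hY]
        refine ⟨?_, k3, k2⟩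
        intro e
        have e1 : ψ (xl c) = Y := by rw [hK.cp c hcK, e, h.inv Y hY]
        exact (h3 _ (hKx c hcK)).1 e1
      obtain ⟨a, b⟩ := step h hK hK20 hKx (hKx _ hsK) (hc _ hs') (h.mem _ hY) hr
        (by rw [hX']; exact h2) (by rw [hX', h.inv _ hX, h.inv _ hY]; exact h1) h3'
        (by rw [hX']; exact hr1) hr2
      rw [hX', h.inv _ hX] at a
      rw [h.inv _ hY] at b
      refine ih s hs (lam r) (h.mem _ hr) ?_ a (by rw [h.inv _ hr]; exact hr1) ?_
      · rw [h.inv _ hr]; push_cast at h0; omega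
      intro c hcK
      obtain ⟨k1, k2, k3⟩ := h3 c hcK
      rw [h.inv _ hr]
      refine ⟨fun e => k2 (by rw [e]; exact ⟨a, b⟩), by omega, by omega⟩
    · push Not at g1 g2
      refine hU (ψ s) Y hX hY ?_ h1 (fun g hg k => ?_) h2 (fun g hg k => ?_)
      · intro x hx e
        rw [← hK.an x hx] at e
        exact (h3 x (hK4 x hx)).1 e
      · have := g1 g hg k.1; omega
      · have := g2 g hg k.1; omega

/-- Extension of an occurrence by a pair. -/
theorem ext2 {lam : α → α} {an : ℕ → α} {W : α → Prop} {pos : α → ℤ} (h : Hy lam W pos)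
    {K : List ℕ} {ψ : ℕ → α} (hK : Em lam an W pos K ψ) (hK20 : ∀ c ∈ K, c < 20)
    (hKx : ∀ c ∈ K, xl c ∈ K) {Y : α} (hY : W Y) (hn : ∀ c ∈ K, ψ c ≠ Y) :
    ∃ q ∈ (insAll 20 K).flatMap (insAll 21), Em lam an W pos q (ex ψ Y (lam Y) Y Y) ∧
      ∀ c, c ∈ q ↔ c = 21 ∨ c = 20 ∨ c ∈ K := by
  have hneq : ∀ x y, W x → W y → x ≠ y → pos x ≠ pos y := fun x y hx hy hne e =>
    hne (h.inj x y hx hy e)
  have hKY' : ∀ c ∈ K, ψ c ≠ lam Y := by
    intro c hc e
    have e1 : ψ (xl c) = Y := by rw [hK.cp c hc, e, h.inv Y hY]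
    exact hn _ (hKx c hc) e1
  set φ := ex ψ Y (lam Y) Y Y with hφ
  have p20 : φ 20 = Y := rfl
  have p21 : φ 21 = lam Y := rfl
  have pK : ∀ c ∈ K, φ c = ψ c := fun c hc => ex_lt (hK20 c hc)
  have q0 : K.Pairwise fun a b => pos (φ a) < pos (φ b) := by
    refine List.Pairwise.imp_of_mem ?_ hK.pw
    intro a b ha hb hab
    rw [pK a ha, pK b hb]; exact hab
  obtain ⟨q1, hq1, hq1p, hq1m⟩ := insAll_pw (p := fun c => pos (φ c)) (t := 20) q0 (by
    intro c hc
    rw [p20, pK c hc]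
    exact hneq _ _ (hK.im c hc) hY (hn c hc))
  obtain ⟨q, hq, hqp, hqm⟩ := insAll_pw (p := fun c => pos (φ c)) (t := 21) hq1p (by
    intro c hc
    rw [p21]
    rcases (hq1m c).1 hc with e | e
    · rw [e, p20]; exact hneq _ _ hY (h.mem _ hY) (h.ne _ hY).symm
    · rw [pK c e]; exact hneq _ _ (hK.im c e) (h.mem _ hY) (hKY' c e))
  have hm : ∀ c, c ∈ q ↔ c = 21 ∨ c = 20 ∨ c ∈ K := fun c => by rw [hqm, hq1m]
  refine ⟨q, List.mem_flatMap.2 ⟨q1, hq1, hq⟩, ⟨?_, ?_, ?_, hqp⟩, hm⟩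
  · intro x hx
    rw [hφ, ex_lt (by omega)]
    exact hK.an x hx
  · intro x hx
    rcases (hm x).1 hx with e | e | e
    · subst e
      show φ 20 = lam (φ 21)
      rw [p20, p21, h.inv Y hY]
    · subst e
      show φ 21 = lam (φ 20)
      rw [p20, p21]
    · rw [pK _ (hKx x e), pK x e]
      exact hK.cp x e
  · intro x hx
    rcases (hm x).1 hx with e | e | e
    · rw [e, p21]; exact h.mem _ hY
    · rw [e, p20]; exact hY
    · rw [pK x e]; exact hK.im x e

end Pool.Agent.QuadEq.Star.Str
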