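import Pool.Agent.Lib.MP_b7851d_lc.Star.N3a.Str.Base

/-!
# N3a, row STR: the finite checks, soundness
-/

namespace Pool.Agent.QuadEq.Star.Str

open Pool.Agent.QuadEq.Star

/-- `b` stands right after `a` -/
def adj (a b : ℕ) : List ℕ → Bool
  | x :: y :: l => (Nat.beq x a && Nat.beq y b) || adj a b (y :: l)
  | _ => false

/-- the last letter is `a` -/
def lastIs (a : ℕ) : List ℕ → Bool
  | [] => false
  | [x] => Nat.beq x a
  | _ :: y :: l => lastIs a (y :: l)

/-- the first letter is `a` -/
def headIs (a : ℕ) : List ℕ → Bool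
  | [] => false
  | x :: _ => Nat.beq x a

/-- subword -/
def isSub : List ℕ → List ℕ → Bool
  | [], _ => true
  | _ :: _, [] => false
  | a :: l, b :: r => if Nat.beq a b then isSub l r else isSub (a :: l) r

/-- the word has the form `e .. m1 f .. m0` -/
def V (q : List ℕ) : Bool := headIs 0 q && adj 3 1 q && lastIs 2 q

/-- the relabelling with code `c` -/
def ph (c x : ℕ) : ℕ :=
  if x < 4 then x else
    if x % 2 = 0 then (c / 128 / 32 ^ ((x - 4) / 2)) % 32
    else xl ((c / 128 / 32 ^ ((x - 4) / 2)) % 32)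

/-- the word `q` contains a pattern of `F` -/
def chkF (F : List (List ℕ)) (q : List ℕ) (c : ℕ) : Bool :=
  match F[c % 128]? with
  | some p => isSub (p.map (ph c)) q
  | none => false

/-- pairwise check -/
def all2 {β γ : Type} (f : β → γ → Bool) : List β → List γ → Bool
  | q :: l, c :: cs => f q c && all2 f l cs
  | [], [] => true
  | _, _ => false

/-- orientation -/
def ori (b : Bool) (q : List ℕ) : List ℕ := bif b then q.reverse else q

/-- the check for the gap lemma -/
def chk2 (b : Bool) (F : List (List ℕ)) (K : List ℕ) (s : ℕ) (cs : List ℕ) : Bool :=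
  all2 (fun q c => !(V (ori b q)) || isSub [xl s, 23, 21] q || chkF F (ori b q) c)
    (insAll 23 (gapq (ori b K) s)) cs

/-- the check for one more pair -/
def chk1 (F : List (List ℕ)) (K sa sb : List ℕ) (ok : List (List ℕ)) (cs : List ℕ) : Bool :=
  all2 (fun q c => !(V q) || chkF F q c || (sa.any fun s => adj s 20 q && adj (xl s) 21 q) ||
    (sb.any fun s => adj 20 s q && adj 21 (xl s) q) || ok.contains q)
    ((insAll 20 K).flatMap (insAll 21)) cs

/-- the letters -/
def lets (K : List ℕ) : List ℕ := K.filter fun c => Nat.ble 4 c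

/-- `K` is a good pattern -/
def chkW (K : List ℕ) : Bool := (K.all fun c => Nat.blt c 20 && K.contains (xl c)) &&
  K.contains 0 && K.contains 1 && K.contains 2 && K.contains 3

/-- all checks for a core -/
def chkK (F : List (List ℕ)) (K : List ℕ) (d : List ℕ × List (List ℕ) × List (List ℕ)) : Bool :=
  chkW K && chk1 F K (lets K) (lets K ++ [2, 3]) [] d.1 &&
    all2 (fun s c => chk2 false F K s c) (lets K) d.2.1 &&
    all2 (fun s c => chk2 true F K s c) (lets K ++ [2, 3]) d.2.2

lemma all2_mem {β γ : Type} {f : β → γ → Bool} {l : List β} {cs : List γ}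
    (h : all2 f l cs = true) : ∀ q ∈ l, ∃ c, f q c = true := by
  induction l generalizing cs with
  | nil => simp
  | cons a l ih =>
    cases cs with
    | nil => simp [all2] at h
    | cons c cs =>
      simp only [all2, Bool.and_eq_true] at h
      intro q hq
      rcases List.mem_cons.1 hq with e | e
      · rw [e]; exact ⟨c, h.1⟩
      · exact ih h.2 q e

lemma beq_eq {a b : ℕ} (h : Nat.beq a b = true) : a = b := Nat.eq_of_beq_eq_true h

lemma isSub_sub {a b : List ℕ} (h : isSub a b = true) : a.Sublist b := by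
  induction b generalizing a with
  | nil =>
    cases a with
    | nil => exact List.Sublist.refl _
    | cons x l => simp [isSub] at h
  | cons y r ih =>
    cases a with
    | nil => exact List.nil_sublist _
    | cons x l =>
      simp only [isSub] at h
      split_ifs at h with e
      · rw [beq_eq e]; exact (ih h).cons_cons _
      · exact (ih h).cons _

lemma adj_split {a b : ℕ} {q : List ℕ} (h : adj a b q = true) :
    ∃ l₁ l₂, q = l₁ ++ a :: b :: l₂ := by
  induction q with
  | nil => simp [adj] at h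
  | cons x l ih =>
    cases l with
    | nil => simp [adj] at h
    | cons y l =>
      simp only [adj, Bool.or_eq_true, Bool.and_eq_true] at h
      rcases h with ⟨e1, e2⟩ | h
      · exact ⟨[], l, by rw [beq_eq e1, beq_eq e2]; rfl⟩
      · obtain ⟨l₁, l₂, e⟩ := ih h
        exact ⟨x :: l₁, l₂, by rw [e]; rfl⟩

lemma adj_of_split {a b : ℕ} {l₁ l₂ : List ℕ} : adj a b (l₁ ++ a :: b :: l₂) = true := by
  induction l₁ with
  | nil => simp [adj]
  | cons x l ih =>
    cases l with
    | nil =>
      simp only [List.nil_append, List.cons_append] at ih ⊢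
      rw [adj, ih, Bool.or_true]
    | cons y l =>
      simp only [List.cons_append] at ih ⊢
      rw [adj, ih, Bool.or_true]

lemma lastIs_append {a : ℕ} {l : List ℕ} : lastIs a (l ++ [a]) = true := by
  induction l with
  | nil => simp [lastIs]
  | cons x l ih =>
    cases l with
    | nil => simp [lastIs]
    | cons y l =>
      simp only [List.cons_append] at ih ⊢
      rw [lastIs]; exact ih

lemma ph_lt {c x : ℕ} (h : x < 4) : ph c x = x := by simp [ph, h]

lemma ph_xl (c x : ℕ) : ph c (xl x) = xl (ph c x) := by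
  by_cases h : x < 4
  · rw [ph_lt h, ph_lt (xl_lt4 h)]
  · have h' : ¬ xl x < 4 := fun h' => h (by have := xl_lt4 h'; rwa [xl_xl] at this)
    have e : (xl x - 4) / 2 = (x - 4) / 2 := by unfold xl; split_ifs <;> omega
    unfold ph
    rw [if_neg h, if_neg h', e]
    by_cases h2 : x % 2 = 0
    · have h3 : ¬ xl x % 2 = 0 := by unfold xl; rw [if_pos h2]; omega
      rw [if_pos h2, if_neg h3]
    · have h3 : xl x % 2 = 0 := by unfold xl; rw [if_neg h2]; omega
      rw [if_neg h2, if_pos h3, xl_xl]

variable {α : Type}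

/-- the set `F` of patterns does not occur -/
def Free (lam : α → α) (an : ℕ → α) (W : α → Prop) (pos : α → ℤ) (F : List (List ℕ)) : Prop :=
  ∀ p ∈ F, ∀ ψ, ¬ Em lam an W pos p ψ

lemma chkF_sound {lam : α → α} {an : ℕ → α} {W : α → Prop} {pos : α → ℤ} {F : List (List ℕ)}
    (hF : Free lam an W pos F) {q : List ℕ} {c : ℕ} (h : chkF F q c = true) (ψ : ℕ → α) :
    ¬ Em lam an W pos q ψ := by
  intro he
  unfold chkF at h
  split at h
  · rename_i p hp
    have hpF : p ∈ F := List.mem_of_getElem? hp
    have hsub := isSub_sub h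
    refine hF p hpF (fun x => ψ (ph c x)) ⟨?_, ?_, ?_, ?_⟩
    · intro x hx
      simp only [ph_lt hx]
      exact he.an x hx
    · intro x hx
      have hq : ph c x ∈ q := hsub.subset (List.mem_map_of_mem hx)
      show ψ (ph c (xl x)) = lam (ψ (ph c x))
      rw [ph_xl]
      exact he.cp _ hq
    · intro x hx
      exact he.im _ (hsub.subset (List.mem_map_of_mem hx))
    · have := he.pw.sublist hsub
      rw [List.pairwise_map] at this
      exact this
  · simp at h

/-- the positions of the anchors -/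
structure Anch (an : ℕ → α) (W : α → Prop) (pos : α → ℤ) : Prop where
  lo : ∀ g, W g → pos (an 0) ≤ pos g
  hi : ∀ g, W g → pos g ≤ pos (an 2)
  lt : pos (an 3) < pos (an 1)
  mi : ∀ g, W g → ¬ (pos (an 3) < pos g ∧ pos g < pos (an 1))

lemma V_of_em {lam : α → α} {an : ℕ → α} {W : α → Prop} {pos : α → ℤ} (ha : Anch an W pos)
    (h : Hy lam W pos) {q : List ℕ} {ψ : ℕ → α} (he : Em lam an W pos q ψ)
    (h4 : ∀ x < 4, x ∈ q) : V q = true := by
  have p0 := he.an 0 (by omega)
  have p1 := he.an 1 (by omega)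
  have p2 := he.an 2 (by omega)
  have p3 := he.an 3 (by omega)
  have e1 : headIs 0 q = true := by
    cases q with
    | nil => have := h4 0 (by omega); simp at this
    | cons c l =>
      have h0 := h4 0 (by omega)
      rcases List.mem_cons.1 h0 with e | e
      · rw [← e]; simp [headIs]
      · have := (List.pairwise_cons.1 he.pw).1 0 e
        rw [p0] at this
        have := ha.lo _ (he.im c (List.mem_cons_self ..))
        omega
  have e2 : lastIs 2 q = true := by
    have h2 := h4 2 (by omega)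
    obtain ⟨l₁, l₂, e⟩ := List.append_of_mem h2
    cases l₂ with
    | nil => rw [e]; exact lastIs_append
    | cons c l =>
      have hp := he.pw
      rw [e, List.pairwise_append, List.pairwise_cons] at hp
      have := hp.2.1.1 c (List.mem_cons_self ..)
      rw [p2] at this
      have := ha.hi _ (he.im c (by rw [e]; simp))
      omega
  have e3 : adj 3 1 q = true := by
    have h3 := h4 3 (by omega)
    have h1 := h4 1 (by omega)
    obtain ⟨l₁, l₂, e⟩ := List.append_of_mem h3
    have hp := he.pw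
    rw [e, List.pairwise_append, List.pairwise_cons] at hp
    have h31 := ha.lt
    rw [← p3, ← p1] at h31
    have hmi := ha.mi
    rw [← p3, ← p1] at hmi
    have h1' : 1 ∈ l₂ := by
      rw [e] at h1
      rcases List.mem_append.1 h1 with e' | e'
      · have := hp.2.2 1 e' 3 (by simp)
        omega
      · rcases List.mem_cons.1 e' with e'' | e''
        · omega
        · exact e''
    cases l₂ with
    | nil => simp at h1'
    | cons c l =>
      rcases List.mem_cons.1 h1' with e' | e'
      · rw [e, ← e']; exact adj_of_split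
      · exfalso
        have k1 := hp.2.1.1 c (List.mem_cons_self ..)
        have k2 := (List.pairwise_cons.1 hp.2.1.2).1 1 e'
        exact hmi _ (he.im c (by rw [e]; simp)) ⟨k1, k2⟩
  simp [V, e1, e2, e3]

/-- no common adjacency -/
def NoAdj (lam : α → α) (an : ℕ → α) (W : α → Prop) (pos : α → ℤ) : Prop :=
  ∀ X Y, W X → W Y → ((∀ x < 4, an x ≠ X) ∨ (∀ x < 4, an x ≠ Y)) → pos X < pos Y →
      (∀ g, W g → ¬ (pos X < pos g ∧ pos g < pos Y)) → pos (lam X) < pos (lam Y) →
      (∀ g, W g → ¬ (pos (lam X) < pos g ∧ pos g < pos (lam Y))) → False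

/-- the whole setting -/
structure Set1 (lam : α → α) (an : ℕ → α) (W : α → Prop) (pos : α → ℤ) (F : List (List ℕ)) :
    Prop where
  hy : Hy lam W pos
  ha : Anch an W pos
  hn : NoAdj lam an W pos
  hf : Free lam an W pos F

lemma chkW_sound {K : List ℕ} (h : chkW K = true) : (∀ c ∈ K, c < 20) ∧ (∀ c ∈ K, xl c ∈ K) ∧
    ∀ x < 4, x ∈ K := by
  simp only [chkW, Bool.and_eq_true, List.all_eq_true, List.contains_iff_mem] at h
  obtain ⟨⟨⟨⟨h1, h2⟩, h3⟩, h4⟩, h5⟩ := h
  refine ⟨fun c hc => ?_, fun c hc => (h1 c hc).2, ?_⟩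
  · have := (h1 c hc).1
    simpa [Nat.blt] using this
  · intro x hx
    interval_cases x <;> assumption

/-- the gap lemma, after `s` -/
lemma gap_after {lam : α → α} {an : ℕ → α} {W : α → Prop} {pos : α → ℤ} {F : List (List ℕ)}
    (h : Set1 lam an W pos F) {K : List ℕ} (hW : chkW K = true) {ψ : ℕ → α}
    (hK : Em lam an W pos K ψ) {s : ℕ} (hs : s ∈ K)
    (h1 : ∃ c, chk2 false F K s c = true) (h2 : ∃ c, chk2 false F K (xl s) c = true)
    {Y : α} (hY : W Y) (k1 : pos (ψ s) < pos Y) (k2 : pos (lam (ψ s)) < pos (lam Y))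
    (k3 : ∀ c ∈ K, ψ c ≠ Y ∧ ¬ (pos (ψ s) < pos (ψ c) ∧ pos (ψ c) < pos Y) ∧
        ¬ (pos (lam (ψ s)) < pos (ψ c) ∧ pos (ψ c) < pos (lam Y))) : False := by
  obtain ⟨w1, w2, w3⟩ := chkW_sound hW
  refine gap h.hy ?_ hK w1 w2 w3 hs ?_
    ((pos Y - pos (ψ s)) + (pos (lam Y) - pos (lam (ψ s)))).toNat s (Or.inl rfl) Y hY
    (by omega) k1 k2 k3
  · intro X Y hX hY hne a b c d
    exact h.hn X Y hX hY (Or.inr hne) a b c d
  · have key : ∀ s', (∃ c, chk2 false F K s' c = true) → ∀ q ∈ insAll 23 (gapq K s'),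
        [xl s', 23, 21].Sublist q ∨
        ∀ ψ, (∀ c, c ∈ q ↔ c = 23 ∨ c ∈ gapq K s') → ¬ Em lam an W pos q ψ := by
      intro s' hc q hq
      obtain ⟨cs, hc⟩ := hc
      obtain ⟨c, hc⟩ := all2_mem hc q hq
      simp only [ori, cond_false, Bool.or_eq_true, Bool.not_eq_true'] at hc
      rcases hc with (hc | hc) | hc
      · right
        intro ψ' hm he
        have := V_of_em h.ha h.hy he (fun x hx => (hm x).2 (Or.inr ?_))
        · rw [hc] at this; exact absurd this (by simp)
        · have hxK := w3 x hx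
          have : ∀ {s t : ℕ} {l : List ℕ}, x ∈ l → x ∈ insL s [t] l := by
            intro s t l hl
            by_cases hsl : s ∈ l
            · exact (mem_insL hsl).2 (Or.inr hl)
            · have : insL s [t] l = l := by
                clear hl
                induction l with
                | nil => rfl
                | cons a l ih =>
                  have e1 : a ≠ s := fun e => hsl (by simp [e])
                  have e2 : s ∉ l := fun e => hsl (by simp [e])
                  simp [insL, e1, ih e2]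
              rw [this]; exact hl
          exact this (this (this hxK))
      · left; exact isSub_sub hc
      · right
        intro ψ' _ he
        exact chkF_sound h.hf hc ψ' he
    intro s' hs'
    rcases hs' with e | e
    · rw [e]; exact key s h1
    · rw [e]; exact key _ h2

/-- the gap lemma, before `s` -/
lemma gap_before {lam : α → α} {an : ℕ → α} {W : α → Prop} {pos : α → ℤ} {F : List (List ℕ)}
    (h : Set1 lam an W pos F) {K : List ℕ} (hW : chkW K = true) {ψ : ℕ → α}
    (hK : Em lam an W pos K ψ) {s : ℕ} (hs : s ∈ K)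
    (h1 : ∃ c, chk2 true F K s c = true) (h2 : ∃ c, chk2 true F K (xl s) c = true)
    {Y : α} (hY : W Y) (k1 : pos Y < pos (ψ s)) (k2 : pos (lam Y) < pos (lam (ψ s)))
    (k3 : ∀ c ∈ K, ψ c ≠ Y ∧ ¬ (pos Y < pos (ψ c) ∧ pos (ψ c) < pos (ψ s)) ∧
        ¬ (pos (lam Y) < pos (ψ c) ∧ pos (ψ c) < pos (lam (ψ s)))) : False := by
  obtain ⟨w1, w2, w3⟩ := chkW_sound hW
  refine gap (pos := fun x => - pos x) h.hy.neg ?_ (K := K.reverse) (ψ := ψ) hK.rev
    (fun c hc => w1 c (List.mem_reverse.1 hc))
    (fun c hc => List.mem_reverse.2 (w2 c (List.mem_reverse.1 hc)))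
    (fun x hx => List.mem_reverse.2 (w3 x hx)) (List.mem_reverse.2 hs) ?_
    ((pos (ψ s) - pos Y) + (pos (lam (ψ s)) - pos (lam Y))).toNat s (Or.inl rfl) Y hY
    (by omega) (by omega) (by omega) ?_
  · intro X Y hX hY hne a b c d
    refine h.hn Y X hY hX (Or.inl hne) (by omega) (fun g hg k => b g hg (by omega)) (by omega)
      (fun g hg k => d g hg (by omega))
  · have key : ∀ s', (∃ c, chk2 true F K s' c = true) → ∀ q ∈ insAll 23 (gapq K.reverse s'),
        [xl s', 23, 21].Sublist q ∨
        ∀ ψ, (∀ c, c ∈ q ↔ c = 23 ∨ c ∈ gapq K.reverse s') →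
          ¬ Em lam an W (fun x => - pos x) q ψ := by
      intro s' hc q hq
      obtain ⟨cs, hc⟩ := hc
      obtain ⟨c, hc⟩ := all2_mem hc q hq
      simp only [ori, cond_true, Bool.or_eq_true, Bool.not_eq_true'] at hc
      rcases hc with (hc | hc) | hc
      · right
        intro ψ' hm he
        have := V_of_em h.ha h.hy he.rev' (fun x hx => List.mem_reverse.2 ((hm x).2 (Or.inr ?_)))
        · rw [hc] at this; exact absurd this (by simp)
        · have hxK := List.mem_reverse.2 (w3 x hx)
          have : ∀ {s t : ℕ} {l : List ℕ}, x ∈ l → x ∈ insL s [t] l := by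
            intro s t l hl
            by_cases hsl : s ∈ l
            · exact (mem_insL hsl).2 (Or.inr hl)
            · have : insL s [t] l = l := by
                clear hl
                induction l with
                | nil => rfl
                | cons a l ih =>
                  have e1 : a ≠ s := fun e => hsl (by simp [e])
                  have e2 : s ∉ l := fun e => hsl (by simp [e])
                  simp [insL, e1, ih e2]
              rw [this]; exact hl
          exact this (this (this hxK))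
      · left; exact isSub_sub hc
      · right
        intro ψ' _ he
        exact chkF_sound h.hf hc ψ' he.rev'
    intro s' hs'
    rcases hs' with e | e
    · rw [e]; exact key s h1
    · rw [e]; exact key _ h2
  · intro c hc
    have := k3 c (List.mem_reverse.1 hc)
    refine ⟨this.1, ?_, ?_⟩ <;> omega

/-- The classification of one more token. -/
theorem one_more {lam : α → α} {an : ℕ → α} {W : α → Prop} {pos : α → ℤ} {F : List (List ℕ)}
    (h : Set1 lam an W pos F) {K : List ℕ} (hW : chkW K = true) {ψ : ℕ → α}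
    (hK : Em lam an W pos K ψ) {sa sb : List ℕ} {ok : List (List ℕ)}
    (h1 : ∃ c, chk1 F K sa sb ok c = true)
    (ha : ∀ s ∈ sa, s ∈ K ∧ (∃ c, chk2 false F K s c = true) ∧ ∃ c, chk2 false F K (xl s) c = true)
    (hb : ∀ s ∈ sb, s ∈ K ∧ (∃ c, chk2 true F K s c = true) ∧ ∃ c, chk2 true F K (xl s) c = true)
    {Y : α} (hY : W Y) (hn : ∀ c ∈ K, ψ c ≠ Y) :
    ∃ q ∈ ok, Em lam an W pos q (ex ψ Y (lam Y) Y Y) := by
  obtain ⟨w1, w2, w3⟩ := chkW_sound hW
  obtain ⟨q, hq, he, hm⟩ := ext2 h.hy hK w1 w2 hY hn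
  obtain ⟨cs, h1⟩ := h1
  obtain ⟨c, hc⟩ := all2_mem h1 q hq
  simp only [Bool.or_eq_true, Bool.not_eq_true', List.any_eq_true, Bool.and_eq_true,
    List.contains_iff_mem] at hc
  have pK : ∀ c ∈ K, ex ψ Y (lam Y) Y Y c = ψ c := fun c hc => ex_lt (w1 c hc)
  have p20 : ex ψ Y (lam Y) Y Y 20 = Y := rfl
  have p21 : ex ψ Y (lam Y) Y Y 21 = lam Y := rfl
  -- a factor has no token of q in between
  have btw : ∀ a b, adj a b q = true →
      pos (ex ψ Y (lam Y) Y Y a) < pos (ex ψ Y (lam Y) Y Y b) ∧ ∀ c ∈ q,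
      ¬ (pos (ex ψ Y (lam Y) Y Y a) < pos (ex ψ Y (lam Y) Y Y c) ∧
        pos (ex ψ Y (lam Y) Y Y c) < pos (ex ψ Y (lam Y) Y Y b)) := by
    intro a b hab
    obtain ⟨l₁, l₂, e⟩ := adj_split hab
    have hp := he.pw
    rw [e, List.pairwise_append, List.pairwise_cons, List.pairwise_cons] at hp
    refine ⟨hp.2.1.1 b (by simp), ?_⟩
    intro c hc
    rw [e] at hc
    simp only [List.mem_append, List.mem_cons] at hc
    rcases hc with hc | hc | hc | hc
    · have := hp.2.2 c hc a (by simp)
      omega
    · rw [hc]; omega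
    · rw [hc]; omega
    · have := hp.2.1.2.1 c hc
      omega
  have hKq : ∀ c ∈ K, c ∈ q := fun c hc => (hm c).2 (Or.inr (Or.inr hc))
  rcases hc with (((hc | hc) | hc) | hc) | hc
  · have := V_of_em h.ha h.hy he (fun x hx => hKq x (w3 x hx))
    rw [hc] at this; exact absurd this (by simp)
  · exact absurd he (chkF_sound h.hf hc _)
  · exfalso
    obtain ⟨s, hs, a1, a2⟩ := hc
    obtain ⟨hsK, c1, c2⟩ := ha s hs
    obtain ⟨b1, b2⟩ := btw _ _ a1
    obtain ⟨b3, b4⟩ := btw _ _ a2
    rw [pK s hsK, p20] at b1 b2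
    rw [pK _ (w2 s hsK), p21, hK.cp s hsK] at b3 b4
    refine gap_after h hW hK hsK c1 c2 hY b1 b3 ?_
    intro c hc
    have e2 := b2 c (hKq c hc)
    have e4 := b4 c (hKq c hc)
    rw [pK c hc] at e2 e4
    exact ⟨hn c hc, e2, e4⟩
  · exfalso
    obtain ⟨s, hs, a1, a2⟩ := hc
    obtain ⟨hsK, c1, c2⟩ := hb s hs
    obtain ⟨b1, b2⟩ := btw _ _ a1
    obtain ⟨b3, b4⟩ := btw _ _ a2
    rw [pK s hsK, p20] at b1 b2
    rw [pK _ (w2 s hsK), p21, hK.cp s hsK] at b3 b4
    refine gap_before h hW hK hsK c1 c2 hY b1 b3 ?_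
    intro c hc
    have e2 := b2 c (hKq c hc)
    have e4 := b4 c (hKq c hc)
    rw [pK c hc] at e2 e4
    exact ⟨hn c hc, e2, e4⟩
  · exact ⟨q, hc, he⟩

lemma xl_even_ge {c : ℕ} (h : 4 ≤ c) : 4 ≤ xl c := by unfold xl; split_ifs <;> omega

/-- A core which passes the check contains all tokens. -/
theorem core_all {lam : α → α} {an : ℕ → α} {W : α → Prop} {pos : α → ℤ} {F : List (List ℕ)}
    (h : Set1 lam an W pos F) {K : List ℕ} (hc : ∃ d, chkK F K d = true) {ψ : ℕ → α}
    (hK : Em lam an W pos K ψ) {Y : α} (hY : W Y) : ∃ c ∈ K, ψ c = Y := by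
  by_contra hn
  push Not at hn
  obtain ⟨d, hd⟩ := hc
  simp only [chkK, Bool.and_eq_true] at hd
  obtain ⟨⟨⟨hW, h1⟩, h2⟩, h3⟩ := hd
  obtain ⟨w1, w2, w3⟩ := chkW_sound hW
  have ml : ∀ s, s ∈ lets K ↔ s ∈ K ∧ 4 ≤ s := by
    intro s
    simp [lets, List.mem_filter]
  obtain ⟨q, hq, _⟩ := one_more h hW hK ⟨_, h1⟩ (fun s hs => by
    have hs' := (ml s).1 hs
    exact ⟨hs'.1, all2_mem h2 s hs, all2_mem h2 _ ((ml _).2 ⟨w2 s hs'.1, xl_even_ge hs'.2⟩)⟩)
    (fun s hs => by
      have hxs : s ∈ K ∧ xl s ∈ lets K ++ [2, 3] := by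
        rcases List.mem_append.1 hs with e | e
        · have hs' := (ml s).1 e
          exact ⟨hs'.1, List.mem_append_left _ ((ml _).2 ⟨w2 s hs'.1, xl_even_ge hs'.2⟩)⟩
        · simp only [List.mem_cons, List.not_mem_nil, or_false] at e
          rcases e with e | e <;> subst e
          · exact ⟨w3 2 (by omega), List.mem_append_right _ (by decide)⟩
          · exact ⟨w3 3 (by omega), List.mem_append_right _ (by decide)⟩
      exact ⟨hxs.1, all2_mem h3 s hs, all2_mem h3 _ hxs.2⟩) hY hn
  simp at hq

end Pool.Agent.QuadEq.Star.Str
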