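import Pool.Agent.Lib.MP_b7851d_lc.Star.N3a.Str.Word

/-!
# N3a, row STR: the structure theorem
-/

namespace Pool.Agent.QuadEq.Star.Str

open Pool.Agent.QuadEq.Star

variable {α : Type} [DecidableEq α]

/-- the anchors -/
def anc (e f m m' : α) (n : ℕ) : α :=
  if n = 0 then e else if n = 1 then f else if n = 2 then m else m'

/-- the cyclic word -/
def cw (A B : List α) (e f m m' : α) : List α := e :: ((A ++ [m']) ++ f :: (B ++ [m]))

/-- positions -/
def ps (W : List α) (x : α) : ℤ := (W.idxOf x : ℤ)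

/-- the pattern of a state -/
def conv (s : St ℕ) : List ℕ := 0 :: (s.P.dropLast ++ 1 :: s.Q.dropLast)

lemma FLY_eq : FLY = LY.map conv := by decide +kernel

lemma LY_form : ∀ s ∈ LY, s.m = 2 ∧ s.P = s.P.dropLast ++ [0] ∧ s.Q = s.Q.dropLast ++ [1] := by
  decide +kernel

lemma cw_perm {A B P Q : List α} {e f m m' : α} (hP : P = A ++ [m', e]) (hQ : Q = B ++ [m, f]) :
    (cw A B e f m m').Perm (P ++ Q) := by
  rw [List.perm_iff_count]
  intro a
  subst hP hQ
  simp only [cw, List.count_cons, List.count_append, List.count_nil]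
  omega

/-- the setting -/
lemma setting {lam io : α → α} {e f : α} {X : Finset α} {S : St α} (hD : Dst lam e f S)
    (hC : Cls lam io e f X S) (hne : S.Q.head? ≠ some (lam (io f)))
    (hun : ∀ q ∈ X, io q ≠ lam q) {A B : List α} (hP : S.P = A ++ [lam S.m, e])
    (hQ : S.Q = B ++ [S.m, f]) :
    (cw A B e f S.m (lam S.m)).Nodup ∧
    Hy lam (fun x => x ∈ cw A B e f S.m (lam S.m)) (ps (cw A B e f S.m (lam S.m))) ∧
    Anch (anc e f S.m (lam S.m)) (fun x => x ∈ cw A B e f S.m (lam S.m))
      (ps (cw A B e f S.m (lam S.m))) ∧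
    NoAdj lam (anc e f S.m (lam S.m)) (fun x => x ∈ cw A B e f S.m (lam S.m))
      (ps (cw A B e f S.m (lam S.m))) := by
  set m := S.m with hm
  set m' := lam S.m with hm'
  set W := cw A B e f m m' with hW
  have hperm : W.Perm (S.P ++ S.Q) := cw_perm hP hQ
  have hok := hD.ok
  have hnd : W.Nodup := hperm.nodup_iff.2 hok.nd
  have hmem : ∀ x, x ∈ W ↔ x ∈ S.P ++ S.Q := fun x => hperm.mem_iff
  have hinv : ∀ x, x ∈ W → lam (lam x) = x := fun x hx => hok.inv x ((hmem x).1 hx)
  have hcl : ∀ x, x ∈ W → lam x ∈ W := fun x hx => (hmem _).2 (hok.mem x ((hmem x).1 hx))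
  have hlne : ∀ x, x ∈ W → lam x ≠ x := fun x hx => hok.ne x ((hmem x).1 hx)
  -- positions of the anchors
  have pe : ps W e = 0 := by simp [ps, hW, cw]
  have pm' : ps W m' = A.length + 1 := by
    have e1 : W = (e :: A) ++ m' :: (f :: (B ++ [m])) := by simp [hW, cw]
    have := hnd
    rw [e1] at this
    have h2 := idx_mid this
    rw [← e1] at h2
    simp only [ps, h2, List.length_cons]
    push_cast; ring
  have pf : ps W f = A.length + 2 := by
    have e1 : W = (e :: (A ++ [m'])) ++ f :: (B ++ [m]) := by simp [hW, cw]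
    have := hnd
    rw [e1] at this
    have h2 := idx_mid this
    rw [← e1] at h2
    simp only [ps, h2, List.length_cons, List.length_append, List.length_nil]
    push_cast; ring
  have pm : ps W m = A.length + B.length + 3 := by
    have e1 : W = (e :: ((A ++ [m']) ++ f :: B)) ++ m :: [] := by simp [hW, cw]
    have := hnd
    rw [e1] at this
    have h2 := idx_mid this
    rw [← e1] at h2
    simp only [ps, h2, List.length_cons, List.length_append, List.length_nil]
    push_cast; ring
  have plen : W.length = A.length + B.length + 4 := by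
    simp only [hW, cw, List.length_cons, List.length_append, List.length_nil]; omega
  have hlt : ∀ g, g ∈ W → ps W g ≤ A.length + B.length + 3 := by
    intro g hg
    have := List.idxOf_lt_length_of_mem hg
    simp only [ps]
    omega
  have hinj : ∀ x y, x ∈ W → y ∈ W → ps W x = ps W y → x = y := by
    intro x y hx hy hxy
    simp only [ps] at hxy
    exact (List.idxOf_inj hx).1 (by exact_mod_cast hxy)
  refine ⟨hnd, ⟨hinv, hlne, hcl, hinj⟩, ⟨?_, ?_, ?_, ?_⟩, ?_⟩
  · intro g _
    show ps W e ≤ _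
    rw [pe]; simp [ps]
  · intro g hg
    show _ ≤ ps W m
    rw [pm]; exact hlt g hg
  · show ps W m' < ps W f
    rw [pm', pf]; omega
  · intro g _
    show ¬ (ps W m' < _ ∧ _ < ps W f)
    rw [pm', pf]; omega
  -- no common adjacency
  intro x y hx hy hna h1 h2 h3 h4
  obtain ⟨L₁, L₂, ew⟩ := adj_iff hnd hx hy (by simpa [ps] using h1)
    (fun g hg k => h2 g hg (by simpa [ps] using k))
  obtain ⟨R₁, R₂, ew'⟩ := adj_iff hnd (hcl x hx) (hcl y hy) (by simpa [ps] using h3)
    (fun g hg k => h4 g hg (by simpa [ps] using k))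
  -- next in P or Q is next in W
  have nP : ∀ s t, Nxt S.P s t → s ≠ m' → ∃ l₁ l₂, W = l₁ ++ s :: t :: l₂ := by
    rintro s t ⟨l₁, l₂, h⟩ hs
    rcases List.eq_nil_or_concat l₂ with e1 | ⟨l₂', c, e1⟩
    · exfalso
      rw [hP, e1] at h
      have : A ++ [m', e] = A ++ [m'] ++ [e] := by simp
      rw [this] at h
      have h' : A ++ [m'] ++ [e] = (l₁ ++ [s]) ++ [t] := by rw [h]; simp
      have := List.append_inj_left' h' rfl
      have := List.append_inj_right' this rfl
      simp at this
      exact hs this.symm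
    · rw [hP, e1] at h
      have h' : (A ++ [m']) ++ [e] = (l₁ ++ s :: t :: l₂') ++ [c] := by
        have : A ++ [m', e] = A ++ [m'] ++ [e] := by simp
        rw [← this, h]; simp
      have := List.append_inj_left' h' rfl
      refine ⟨e :: l₁, l₂' ++ f :: (B ++ [m]), ?_⟩
      rw [hW, cw, this]; simp
  have nQ : ∀ s t, Nxt S.Q s t → s ≠ m → ∃ l₁ l₂, W = l₁ ++ s :: t :: l₂ := by
    rintro s t ⟨l₁, l₂, h⟩ hs
    rcases List.eq_nil_or_concat l₂ with e1 | ⟨l₂', c, e1⟩
    · exfalso
      rw [hQ, e1] at h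
      have : B ++ [m, f] = B ++ [m] ++ [f] := by simp
      rw [this] at h
      have h' : B ++ [m] ++ [f] = (l₁ ++ [s]) ++ [t] := by rw [h]; simp
      have := List.append_inj_left' h' rfl
      have := List.append_inj_right' this rfl
      simp at this
      exact hs this.symm
    · rw [hQ, e1] at h
      have h' : (B ++ [m]) ++ [f] = (l₁ ++ s :: t :: l₂') ++ [c] := by
        have : B ++ [m, f] = B ++ [m] ++ [f] := by simp
        rw [← this, h]; simp
      have := List.append_inj_left' h' rfl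
      refine ⟨e :: ((A ++ [m']) ++ f :: l₁), l₂', ?_⟩
      rw [hW, cw, this]; simp
  have emem : e ∈ S.P := by rw [hP]; simp
  have fmem : f ∈ S.Q := by rw [hQ]; simp
  have mmem : m ∈ S.Q := by rw [hQ]; simp
  have m'mem : m' ∈ S.P := by rw [hP]; simp
  have hdis : ∀ x, x ∈ S.P → x ∈ S.Q → False := fun x h1 h2 =>
    (List.nodup_append.1 hok.nd).2.2 x h1 x h2 rfl
  have lef : lam e = f := hok.lef
  have eW : e ∈ W := by simp [hW, cw]
  have fW : f ∈ W := by simp [hW, cw]
  have mW : m ∈ W := by simp [hW, cw]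
  have m'W : m' ∈ W := by simp [hW, cw]
  have lfe : lam f = e := by rw [← lef, hinv e eW]
  have lm' : lam m' = m := by rw [hm', hinv m mW]
  have lm : lam m = m' := rfl
  have hem : e ≠ m := fun h => hdis e emem (by rw [h]; exact mmem)
  have hfm' : f ≠ m' := fun h => hdis f (by rw [h]; exact m'mem) fmem
  have hfm : f ≠ m := fun h => hok.pf h.symm
  have hem' : e ≠ m' := fun h => hfm (by rw [← lef, h, lm'])
  have hef : e ≠ f := fun h => hdis e emem (by rw [h]; exact fmem)
  have hmm' : m ≠ m' := fun h => hdis m (by rw [h]; exact m'mem) mmem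
  -- heads
  have key : ∀ u, S.P.head? = some u → S.Q.head? = some (lam u) → u ∈ X → False := by
    intro u hu hu' huX
    have g1 : GG e f S e u := Or.inl ⟨hem, hef, Or.inr (Or.inr ⟨rfl, hu⟩)⟩
    have g2 := hC.com e u g1
    rw [lef] at g2
    have g3 : io u = f := by
      rcases g2 with g | g | g
      · exact absurd rfl g.2.1
      · exact absurd g.1 hfm
      · rcases g.2 with g | g
        · exfalso
          obtain ⟨l₁, l₂, h⟩ := g
          exact hdis m (by rw [h]; simp [hm]) mmem
        · obtain ⟨l₁, l₂, h⟩ := g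
          have hndQ : S.Q.Nodup := (List.nodup_append.1 hok.nd).2.1
          exact next_unique hndQ (R₁ := B) (R₂ := []) (t' := f) h (by rw [hQ])
    have g4 : io f = u := by rw [← g3, hC.inv u huX]
    rw [← g4] at hu'
    exact hne hu'
  have hX : ∀ x, x ∈ W → x ∈ X := fun x hx => (hC.tok x).1 ((hmem x).1 hx)
  have headP : S.P.head? = (A ++ [m']).head? := by
    rw [hP]
    cases A <;> simp
  have headQ : S.Q.head? = (B ++ [m]).head? := by
    rw [hQ]
    cases B <;> simp
  have nxe : ∀ t l₁ l₂, W = l₁ ++ e :: t :: l₂ → S.P.head? = some t := by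
    intro t l₁ l₂ h
    rw [headP]
    cases hA : A ++ [m'] with
    | nil => simp at hA
    | cons c l =>
      have : W = [] ++ e :: c :: (l ++ f :: (B ++ [m])) := by rw [hW, cw, hA]; simp
      rw [next_unique hnd h this]; rfl
  have nxf : ∀ t l₁ l₂, W = l₁ ++ f :: t :: l₂ → S.Q.head? = some t := by
    intro t l₁ l₂ h
    rw [headQ]
    cases hB : B ++ [m] with
    | nil => simp at hB
    | cons c l =>
      have : W = (e :: (A ++ [m'])) ++ f :: c :: l := by rw [hW, cw, hB]; simp
      rw [next_unique hnd h this]; rfl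
  by_cases x1 : x = e
  · subst x1
    rw [lef] at ew'
    exact key y (nxe _ _ _ ew) (nxf _ _ _ ew') (hX y hy)
  by_cases x2 : x = f
  · subst x2
    rw [lfe] at ew'
    exact key (lam y) (nxe _ _ _ ew') (by rw [hinv y hy]; exact nxf _ _ _ ew) (hX _ (hcl y hy))
  by_cases x3 : x = m
  · rw [x3, pm] at h1
    have := hlt y hy
    omega
  by_cases x4 : x = m'
  · have e5 : y = f := by
      have : W = (e :: A) ++ m' :: f :: (B ++ [m]) := by rw [hW, cw]; simp
      rw [x4] at ew
      exact next_unique hnd ew this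
    rcases hna with h | h
    · exact h 3 (by omega) (by rw [x4]; rfl)
    · exact h 1 (by omega) (by rw [e5]; rfl)
  -- x is in A or B
  have l1 : lam x ≠ e := fun h => x2 (by rw [← hinv x hx, h, lef])
  have l2 : lam x ≠ f := fun h => x1 (by rw [← hinv x hx, h, lfe])
  have l3 : lam x ≠ m := fun h => x4 (by rw [← hinv x hx, h])
  have l4 : lam x ≠ m' := fun h => x3 (by rw [← hinv x hx, h, lm'])
  have hg : GG e f S x y := by
    have hxPQ := (hmem x).1 hx
    rcases List.mem_append.1 hxPQ with h | h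
    · rw [hP] at h
      have hxA : x ∈ A := by
        simp only [List.mem_append, List.mem_cons, List.not_mem_nil, or_false] at h
        rcases h with h | h | h
        · exact h
        · exact absurd h x4
        · exact absurd h x1
      obtain ⟨a₁, a₂, ea⟩ := List.append_of_mem hxA
      obtain ⟨y', l, el⟩ : ∃ y' l, a₂ ++ [m'] = y' :: l := by
        cases a₂ with
        | nil => exact ⟨m', [], rfl⟩
        | cons c l => exact ⟨c, l ++ [m'], rfl⟩
      have hN : Nxt S.P x y' := by
        refine ⟨a₁, l ++ [e], ?_⟩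
        have : S.P = a₁ ++ x :: ((a₂ ++ [m']) ++ [e]) := by rw [hP, ea]; simp
        rw [this, el]; simp
      obtain ⟨l₁, l₂, h5⟩ := nP x y' hN x4
      have e6 := next_unique hnd ew h5
      rw [e6]
      exact Or.inl ⟨x3, x2, Or.inl hN⟩
    · rw [hQ] at h
      have hxB : x ∈ B := by
        simp only [List.mem_append, List.mem_cons, List.not_mem_nil, or_false] at h
        rcases h with h | h | h
        · exact h
        · exact absurd h x3
        · exact absurd h x2
      obtain ⟨a₁, a₂, ea⟩ := List.append_of_mem hxB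
      obtain ⟨y', l, el⟩ : ∃ y' l, a₂ ++ [m] = y' :: l := by
        cases a₂ with
        | nil => exact ⟨m, [], rfl⟩
        | cons c l => exact ⟨c, l ++ [m], rfl⟩
      have hN : Nxt S.Q x y' := by
        refine ⟨a₁, l ++ [f], ?_⟩
        have : S.Q = a₁ ++ x :: ((a₂ ++ [m]) ++ [f]) := by rw [hQ, ea]; simp
        rw [this, el]; simp
      obtain ⟨l₁, l₂, h5⟩ := nQ x y' hN x3
      have e6 := next_unique hnd ew h5
      rw [e6]
      exact Or.inl ⟨x3, x2, Or.inr (Or.inl hN)⟩
  have hg' := hC.com x y hg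
  have e7 : io y = lam y := by
    rcases hg' with g | g | g
    · rcases g.2.2 with g | g | g
      · obtain ⟨l₁, l₂, h5⟩ := nP _ _ g l4
        exact next_unique hnd h5 ew'
      · obtain ⟨l₁, l₂, h5⟩ := nQ _ _ g l3
        exact next_unique hnd h5 ew'
      · exact absurd g.1 l1
    · exact absurd g.1 l3
    · exact absurd g.1 l2
  exact hun y (hX y hy) e7

/-- no pattern of LY -/
lemma free_LY {lam : α → α} {e f : α} {S : St α} {A B : List α}
    (hP : S.P = A ++ [lam S.m, e]) (hQ : S.Q = B ++ [S.m, f])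
    (hnd : (cw A B e f S.m (lam S.m)).Nodup)
    (hL : ∀ s ∈ LY, ¬ Emb lam e f s S) :
    Free lam (anc e f S.m (lam S.m)) (fun x => x ∈ cw A B e f S.m (lam S.m))
      (ps (cw A B e f S.m (lam S.m))) FLY := by
  intro p hp ψ he
  rw [FLY_eq, List.mem_map] at hp
  obtain ⟨s, hs, rfl⟩ := hp
  obtain ⟨f1, f2, f3⟩ := LY_form s hs
  set W := cw A B e f S.m (lam S.m) with hW
  have hpw : ((conv s).map ψ).Pairwise fun a b => W.idxOf a < W.idxOf b := by
    rw [List.pairwise_map]
    exact he.pw.imp (fun h => by simpa [ps] using h)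
  have hsub : ((conv s).map ψ).Sublist W := by
    refine sub_of_pw ?_ hpw hnd
    intro x hx
    obtain ⟨c, hc, rfl⟩ := List.mem_map.1 hx
    exact he.im c hc
  have p0 : ψ 0 = e := he.an 0 (by omega)
  have p1 : ψ 1 = f := he.an 1 (by omega)
  have p2 : ψ 2 = S.m := he.an 2 (by omega)
  have hmemc : ∀ x, x ∈ s.P ++ s.Q → x ∈ conv s := by
    intro x hx
    rw [f2, f3] at hx
    simp only [List.mem_append, List.mem_cons, List.not_mem_nil, or_false] at hx
    simp only [conv, List.mem_append, List.mem_cons]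
    tauto
  have hsub' : (e :: (s.P.dropLast.map ψ ++ f :: s.Q.dropLast.map ψ)).Sublist
      (e :: ((A ++ [lam S.m]) ++ f :: (B ++ [S.m]))) := by
    have : (conv s).map ψ = e :: (s.P.dropLast.map ψ ++ f :: s.Q.dropLast.map ψ) := by
      simp [conv, p0, p1]
    rw [← this]; exact hsub
  have hsub2 := List.cons_sublist_cons.1 hsub'
  obtain ⟨k1, k2⟩ := split_sub (List.nodup_cons.1 hnd).2 hsub2
  refine hL s hs ⟨ψ, ?_, ?_, p0, p1, by rw [f1]; exact p2, ?_, ?_⟩
  · intro x hx y hy hxy
    have hn : ((conv s).map ψ).Nodup := hpw.imp (fun h e => by rw [e] at h; omega)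
    exact List.inj_on_of_nodup_map hn (hmemc x hx) (hmemc y hy) hxy
  · intro x hx
    exact he.cp x (hmemc x hx)
  · rw [f2, hP, List.map_append]
    have : A ++ [lam S.m, e] = (A ++ [lam S.m]) ++ [e] := by simp
    rw [this]
    refine k1.append ?_
    simp [p0]
  · rw [f3, hQ, List.map_append]
    have : B ++ [S.m, f] = (B ++ [S.m]) ++ [f] := by simp
    rw [this]
    refine k2.append ?_
    simp [p1]

lemma chk6 : ∀ K ∈ FC6, K.length ≤ 12 ∧ ∃ d, chkK FLY K d = true := by
  intro K hK
  simp only [FC6, List.mem_cons, List.not_mem_nil, or_false] at hK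
  rcases hK with rfl | rfl | rfl | rfl | rfl | rfl | rfl | rfl
  · exact ⟨by decide, _, chk_c6_0⟩
  · exact ⟨by decide, _, chk_c6_1⟩
  · exact ⟨by decide, _, chk_c6_2⟩
  · exact ⟨by decide, _, chk_c6_3⟩
  · exact ⟨by decide, _, chk_c6_4⟩
  · exact ⟨by decide, _, chk_c6_5⟩
  · exact ⟨by decide, _, chk_c6_6⟩
  · exact ⟨by decide, _, chk_c6_7⟩

lemma chk5 : ∀ K ∈ FC5, K.length ≤ 12 ∧ ∃ d, chkK (FLY ++ FC6) K d = true := by
  intro K hK
  simp only [FC5, List.mem_cons, List.not_mem_nil, or_false] at hK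
  rcases hK with rfl | rfl | rfl | rfl
  · exact ⟨by decide, _, chk_c5_0⟩
  · exact ⟨by decide, _, chk_c5_1⟩
  · exact ⟨by decide, _, chk_c5_2⟩
  · exact ⟨by decide, _, chk_c5_3⟩

/-- cores do not occur if there are at least seven pairs -/
lemma no_core {lam : α → α} {an : ℕ → α} {W : List α} {pos : α → ℤ} {F G : List (List ℕ)}
    (h : Set1 lam an (fun x => x ∈ W) pos F) {X : Finset α} (hX : ∀ x ∈ X, x ∈ W)
    (hc : 14 ≤ X.card) (hG : ∀ K ∈ G, K.length ≤ 12 ∧ ∃ d, chkK F K d = true) :
    Free lam an (fun x => x ∈ W) pos G := by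
  intro K hK ψ he
  obtain ⟨h1, h2⟩ := hG K hK
  have : X ⊆ (K.map ψ).toFinset := by
    intro x hx
    obtain ⟨c, hc, e⟩ := core_all h h2 he (hX x hx)
    rw [List.mem_toFinset, List.mem_map]
    exact ⟨c, hc, e⟩
  have h3 := Finset.card_le_card this
  have h4 := List.toFinset_card_le (K.map ψ)
  rw [List.length_map] at h4
  omega

/-- two elements of a word -/
lemma two_split {A : List α} {x y : α} (hx : x ∈ A) (hy : y ∈ A) (hxy : x ≠ y) :
    (∃ A₁ A₂ A₃, A = A₁ ++ x :: (A₂ ++ y :: A₃)) ∨ ∃ A₁ A₂ A₃, A = A₁ ++ y :: (A₂ ++ x :: A₃) := by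
  obtain ⟨L, R, e⟩ := List.append_of_mem hx
  rw [e] at hy
  rcases List.mem_append.1 hy with h | h
  · right
    obtain ⟨L₁, L₂, e'⟩ := List.append_of_mem h
    exact ⟨L₁, L₂, R, by rw [e, e']; simp⟩
  · left
    rcases List.mem_cons.1 h with h | h
    · exact absurd h.symm hxy
    · obtain ⟨L₁, L₂, e'⟩ := List.append_of_mem h
      exact ⟨L, L₁, L₂, by rw [e, e']⟩

end Pool.Agent.QuadEq.Star.Str
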