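import Pool.Agent.Lib.MP_b7851d_lc.Star.N3a.Str.Cert

/-!
# N3a, row STR: words and positions
-/

namespace Pool.Agent.QuadEq.Star.Str

open Pool.Agent.QuadEq.Star

variable {α : Type} [DecidableEq α]

lemma idx_mid {L₁ L₂ : List α} {x : α} (h : (L₁ ++ x :: L₂).Nodup) :
    (L₁ ++ x :: L₂).idxOf x = L₁.length := by
  have hx : x ∉ L₁ := fun e => by
    rw [List.nodup_append] at h
    exact h.2.2 x e x (by simp) rfl
  rw [List.idxOf_append_of_notMem hx, List.idxOf_cons_self, Nat.add_zero]

/-- positions in `L ++ p :: (M ++ q :: R)` -/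
lemma btw_iff {L M R : List α} {p q g : α} (h : (L ++ p :: (M ++ q :: R)).Nodup)
    (hg : g ∈ L ++ p :: (M ++ q :: R)) :
    g ∈ M ↔ (L ++ p :: (M ++ q :: R)).idxOf p < (L ++ p :: (M ++ q :: R)).idxOf g ∧
      (L ++ p :: (M ++ q :: R)).idxOf g < (L ++ p :: (M ++ q :: R)).idxOf q := by
  set W := L ++ p :: (M ++ q :: R) with hW
  have ep : W.idxOf p = L.length := idx_mid h
  have e2 : W = (L ++ p :: M) ++ q :: R := by rw [hW]; simp
  have eq' : W.idxOf q = L.length + 1 + M.length := by
    rw [e2] at h ⊢
    rw [idx_mid h]; simp; omega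
  obtain ⟨L₁, L₂, e⟩ := List.append_of_mem hg
  have eg : W.idxOf g = L₁.length := by
    rw [e] at h ⊢
    exact idx_mid h
  have hget : W[L₁.length]? = some g := by
    rw [e, List.getElem?_append_right (le_refl _)]; simp
  rw [ep, eq', eg]
  constructor
  · intro hM
    obtain ⟨M₁, M₂, e'⟩ := List.append_of_mem hM
    have e3 : W = (L ++ p :: M₁) ++ g :: (M₂ ++ q :: R) := by rw [hW, e']; simp
    have : W.idxOf g = (L ++ p :: M₁).length := by
      rw [e3] at h ⊢
      exact idx_mid h
    rw [eg] at this
    rw [this, e']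
    simp only [List.length_append, List.length_cons]
    omega
  · rintro ⟨h1, h2⟩
    rw [hW, List.getElem?_append_right (by omega)] at hget
    obtain ⟨k, hk⟩ : ∃ k, L₁.length - L.length = k + 1 := ⟨L₁.length - L.length - 1, by omega⟩
    rw [hk, List.getElem?_cons_succ, List.getElem?_append_left (by omega)] at hget
    exact List.mem_of_getElem? hget

lemma adj_iff {W : List α} (h : W.Nodup) {x y : α} (hx : x ∈ W) (hy : y ∈ W)
    (hxy : W.idxOf x < W.idxOf y)
    (hg : ∀ g, g ∈ W → ¬ (W.idxOf x < W.idxOf g ∧ W.idxOf g < W.idxOf y)) :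
    ∃ L₁ L₂, W = L₁ ++ x :: y :: L₂ := by
  obtain ⟨L, R, e⟩ := List.append_of_mem hx
  cases R with
  | nil =>
    exfalso
    rw [e] at h hxy hy
    rw [idx_mid h] at hxy
    have := List.idxOf_lt_length_of_mem hy
    simp at this
    omega
  | cons g R =>
    by_cases hgy : g = y
    · exact ⟨L, R, by rw [e, hgy]⟩
    · exfalso
      have e2 : W = (L ++ [x]) ++ g :: R := by rw [e]; simp
      have eg : W.idxOf g = L.length + 1 := by
        rw [e2] at h ⊢
        rw [idx_mid h]; simp
      have ex : W.idxOf x = L.length := by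
        rw [e] at h ⊢
        exact idx_mid h
      have hgW : g ∈ W := by rw [e]; simp
      refine hg g hgW ⟨by omega, ?_⟩
      have h1 : W.idxOf g ≠ W.idxOf y := by
        intro e'
        exact hgy ((List.idxOf_inj hgW).1 e')
      omega

lemma next_unique {W : List α} (h : W.Nodup) {s t t' : α} {L₁ L₂ R₁ R₂ : List α}
    (h1 : W = L₁ ++ s :: t :: L₂) (h2 : W = R₁ ++ s :: t' :: R₂) : t = t' := by
  have e1 : W.idxOf s = L₁.length := by rw [h1] at h ⊢; exact idx_mid h
  have e2 : W.idxOf s = R₁.length := by rw [h2] at h ⊢; exact idx_mid h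
  have e3 : L₁.length = R₁.length := by omega
  rw [h1] at h2
  have := List.append_inj h2 e3
  simp at this
  exact this.2.1

/-- sorted by positions is a subword -/
lemma sub_of_pw {W l : List α} (hl : ∀ x ∈ l, x ∈ W)
    (hp : l.Pairwise fun a b => W.idxOf a < W.idxOf b) (h : W.Nodup) : l.Sublist W := by
  have hW : W.Pairwise fun a b => W.idxOf a < W.idxOf b := by
    have key : ∀ (L R : List α), (L ++ R).Nodup → R.Pairwise fun a b =>
        (L ++ R).idxOf a < (L ++ R).idxOf b := by
      intro L R
      induction R generalizing L with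
      | nil => simp
      | cons a R ih =>
        intro hn
        rw [List.pairwise_cons]
        constructor
        · intro b hb
          rw [idx_mid hn]
          obtain ⟨R₁, R₂, e⟩ := List.append_of_mem hb
          have e2 : L ++ a :: R = (L ++ a :: R₁) ++ b :: R₂ := by rw [e]; simp
          rw [e2] at hn ⊢
          rw [idx_mid hn]; simp
        · have := ih (L ++ [a]) (by simpa using hn)
          simpa using this
    exact key [] W h
  have hnl : l.Nodup := hp.imp (fun h e => by rw [e] at h; omega)
  exact List.sublist_of_subperm_of_pairwise (List.subperm_of_subset hnl hl) hp hW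

lemma pw_of_sub {W l : List α} (h : W.Nodup) (hl : l.Sublist W) :
    l.Pairwise fun a b => W.idxOf a < W.idxOf b := by
  have key : ∀ (L R : List α), (L ++ R).Nodup → R.Pairwise fun a b =>
      (L ++ R).idxOf a < (L ++ R).idxOf b := by
    intro L R
    induction R generalizing L with
    | nil => simp
    | cons a R ih =>
      intro hn
      rw [List.pairwise_cons]
      constructor
      · intro b hb
        rw [idx_mid hn]
        obtain ⟨R₁, R₂, e⟩ := List.append_of_mem hb
        have e2 : L ++ a :: R = (L ++ a :: R₁) ++ b :: R₂ := by rw [e]; simp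
        rw [e2] at hn ⊢
        rw [idx_mid hn]; simp
      · have := ih (L ++ [a]) (by simpa using hn)
        simpa using this
  exact (key [] W h).sublist hl

lemma split_sub {X : α} {a b L R : List α} (hnd : (L ++ X :: R).Nodup)
    (h : (a ++ X :: b).Sublist (L ++ X :: R)) : a.Sublist L ∧ b.Sublist R := by
  induction L generalizing a with
  | nil =>
    have hX : X ∉ R := by
      rw [List.nil_append, List.nodup_cons] at hnd
      exact hnd.1
    cases a with
    | nil =>
      refine ⟨List.Sublist.refl _, ?_⟩
      simpa using h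
    | cons c a =>
      exfalso
      have h' : (c :: (a ++ X :: b)).Sublist (X :: R) := h
      cases h' with
      | cons _ h' => exact hX (h'.subset (by simp))
      | cons_cons _ h' => exact hX (h'.subset (by simp))
  | cons c L ih =>
    have hnd' : (L ++ X :: R).Nodup := (List.nodup_cons.1 hnd).2
    have hc : c ∉ L ++ X :: R := (List.nodup_cons.1 hnd).1
    have h' : (a ++ X :: b).Sublist (c :: (L ++ X :: R)) := h
    cases a with
    | nil =>
      have h'' : (X :: b).Sublist (c :: (L ++ X :: R)) := h
      cases h'' with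
      | cons _ h'' =>
        obtain ⟨k1, k2⟩ := ih hnd' (a := []) h''
        exact ⟨List.nil_sublist _, k2⟩
      | cons_cons _ h'' => exact absurd (by simp) hc
    | cons d a =>
      have h'' : (d :: (a ++ X :: b)).Sublist (c :: (L ++ X :: R)) := h
      cases h'' with
      | cons _ h'' =>
        obtain ⟨k1, k2⟩ := ih hnd' (a := d :: a) h''
        exact ⟨k1.cons _, k2⟩
      | cons_cons _ h'' =>
        obtain ⟨k1, k2⟩ := ih hnd' h''
        exact ⟨k1.cons_cons _, k2⟩

/-- order reversing maps of words -/
lemma rev_eq {lam : α → α} {pos : α → ℤ} {T U : List α}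
    (hT : T.Pairwise fun a b => pos a < pos b) (hU : U.Pairwise fun a b => pos a < pos b)
    (h1 : ∀ a ∈ T, lam a ∈ U) (h2 : ∀ b ∈ U, lam b ∈ T) (h3 : ∀ b ∈ U, lam (lam b) = b)
    (h4 : ∀ a ∈ T, ∀ b ∈ T, pos a < pos b → pos (lam b) < pos (lam a)) :
    U = (T.map lam).reverse := by
  have hV : ((T.map lam).reverse).Pairwise fun a b => pos a < pos b := by
    rw [List.pairwise_reverse, List.pairwise_map]
    exact List.Pairwise.imp_of_mem (fun ha hb h => h4 _ ha _ hb h) hT
  have hmem : ∀ a, a ∈ U ↔ a ∈ (T.map lam).reverse := by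
    intro a
    rw [List.mem_reverse, List.mem_map]
    constructor
    · intro ha
      exact ⟨lam a, h2 a ha, h3 a ha⟩
    · rintro ⟨b, hb, rfl⟩
      exact h1 b hb
  have n1 : U.Nodup := hU.imp (fun h e => by rw [e] at h; omega)
  have n2 : ((T.map lam).reverse).Nodup := hV.imp (fun h e => by rw [e] at h; omega)
  have hperm : U.Perm (T.map lam).reverse := (List.perm_ext_iff_of_nodup n1 n2).2 hmem
  exact hperm.eq_of_pairwise (fun a b _ _ h h' => by omega) hU hV

end Pool.Agent.QuadEq.Star.Str
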